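import Pool.Agent.Lib.MP_7e9d2b_lc.Defs

/-!
The graph of the reduction, in an abstract form.
-/

namespace Pool.Agent.Lib.MP_7e9d2b_lc

/-- The vertices: variables, clauses, gadget vertices on the side of the variables and on the side
of the clauses. -/
inductive Vx (m : ℕ) : Type
  | var (u : Fin m)
  | cls (j : Fin m)
  | gx (j : Fin m) (r : Fin 3) (i : Fin 12)
  | gy (j : Fin m) (r : Fin 3) (i : Fin 12)
  deriving DecidableEq, Fintype

/-- The edges, directed from the side of the variables to the side of the clauses. -/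
def Arc (F : List (ℕ × ℕ × ℕ)) : Vx F.length → Vx F.length → Prop
  | .var u, .gy j r i => i = 1 ∧ lit F j r = u.val
  | .gx j _ i, .cls j' => i = 0 ∧ j = j'
  | .gx j r i, .gy j' r' i' => j = j' ∧ r = r' ∧ (i.val, i'.val) ∈ wire
  | _, _ => False

/-- The abstract graph. -/
def AG (F : List (ℕ × ℕ × ℕ)) : SimpleGraph (Vx F.length) where
  Adj v w := Arc F v w ∨ Arc F w v
  symm := ⟨fun _ _ h => h.symm⟩
  loopless := ⟨by rintro (u | j | ⟨j, r, i⟩ | ⟨j, r, i⟩) (h | h) <;> exact h⟩

/-- The number of a vertex. -/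
def nm {m : ℕ} : Vx m → ℕ
  | .var u => 74 * u.val
  | .cls j => 74 * j.val + 37
  | .gx j r i => 74 * j.val + (1 + 12 * r.val + i.val)
  | .gy j r i => 74 * j.val + (38 + 12 * r.val + i.val)

/-- The place of a vertex inside its block. -/
def off {m : ℕ} : Vx m → ℕ
  | .var _ => 0
  | .cls _ => 37
  | .gx _ r i => 1 + 12 * r.val + i.val
  | .gy _ r i => 38 + 12 * r.val + i.val

/-- The block of a vertex. -/
def blk {m : ℕ} : Vx m → Fin m
  | .var u => u
  | .cls j => j
  | .gx j _ _ => j
  | .gy j _ _ => j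

lemma off_lt {m : ℕ} (v : Vx m) : off v < 74 := by
  cases v <;> simp only [off] <;> omega

lemma nm_eq {m : ℕ} (v : Vx m) : nm v = 74 * (blk v).val + off v := by
  cases v <;> rfl

lemma nm_lt {m : ℕ} (v : Vx m) : nm v < 74 * m := by
  have h1 := off_lt v
  have h2 := nm_eq v
  have h3 := (blk v).isLt
  omega

lemma nm_split {m : ℕ} {v w : Vx m} (h : nm v = nm w) : blk v = blk w ∧ off v = off w := by
  have h1 := off_lt v
  have h2 := nm_eq v
  have h3 := off_lt w
  have h4 := nm_eq w
  constructor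
  · exact Fin.ext (by omega)
  · omega

lemma blk_off_inj {m : ℕ} {v w : Vx m} (h1 : blk v = blk w) (h2 : off v = off w) : v = w := by
  rcases v with u | j | ⟨j, r, i⟩ | ⟨j, r, i⟩ <;>
    rcases w with u' | j' | ⟨j', r', i'⟩ | ⟨j', r', i'⟩ <;>
    simp only [blk, off] at h1 h2 <;> first
    | (subst h1; rfl)
    | (exfalso; omega)
    | (have h3 : r = r' := Fin.ext (by omega)
       have h4 : i = i' := Fin.ext (by omega)
       rw [h1, h3, h4])

lemma nm_inj {m : ℕ} : Function.Injective (nm : Vx m → ℕ) := fun _ _ h =>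
  blk_off_inj (nm_split h).1 (nm_split h).2

/-- The numbering as an equivalence. -/
noncomputable def nmEquiv (m : ℕ) : Vx m ≃ Fin (74 * m) :=
  Equiv.ofBijective (fun v => ⟨nm v, nm_lt v⟩) <| by
    constructor
    · intro v w h
      exact nm_inj (congrArg Fin.val h)
    · intro x
      have hx := x.isLt
      have hq : x.val / 74 < m := by omega
      by_cases h0 : x.val % 74 = 0
      · exact ⟨.var ⟨x.val / 74, hq⟩, Fin.ext (by simp only [nm]; omega)⟩
      by_cases h1 : x.val % 74 < 37
      · exact ⟨.gx ⟨x.val / 74, hq⟩ ⟨(x.val % 74 - 1) / 12, by omega⟩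
          ⟨(x.val % 74 - 1) % 12, by omega⟩, Fin.ext (by simp only [nm]; omega)⟩
      by_cases h2 : x.val % 74 = 37
      · exact ⟨.cls ⟨x.val / 74, hq⟩, Fin.ext (by simp only [nm]; omega)⟩
      · exact ⟨.gy ⟨x.val / 74, hq⟩ ⟨(x.val % 74 - 38) / 12, by omega⟩
          ⟨(x.val % 74 - 38) % 12, by omega⟩, Fin.ext (by simp only [nm]; omega)⟩

@[simp] lemma nmEquiv_val {m : ℕ} (v : Vx m) : (nmEquiv m v).val = nm v := rfl

lemma mem_go : ∀ (F : List (ℕ × ℕ × ℕ)) (j : ℕ) (acc : List (ℕ × ℕ)) (e : ℕ × ℕ),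
    e ∈ go j F acc ↔ e ∈ acc ∨ ∃ (k : Fin F.length) (r : Fin 3),
      e ∈ wireEdges (j + k.val) r.val (lit F k r) := by
  intro F
  induction F with
  | nil =>
    intro j acc e
    constructor
    · intro h; exact Or.inl h
    · rintro (h | ⟨k, -⟩)
      · exact h
      · exact k.elim0
  | cons x F ih =>
    obtain ⟨a, b, c⟩ := x
    intro j acc e
    rw [go, ih]
    simp only [List.mem_append]
    constructor
    · rintro ((h | h | h | h) | ⟨k, r, h⟩)
      · exact Or.inr ⟨⟨0, by simp⟩, 2, h⟩
      · exact Or.inr ⟨⟨0, by simp⟩, 1, h⟩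
      · exact Or.inr ⟨⟨0, by simp⟩, 0, h⟩
      · exact Or.inl h
      · refine Or.inr ⟨⟨k.val + 1, by simp⟩, r, ?_⟩
        have e1 : j + (k.val + 1) = j + 1 + k.val := by ring
        rw [e1]
        exact h
    · rintro (h | ⟨⟨k, hk⟩, r, h⟩)
      · exact Or.inl (Or.inr (Or.inr (Or.inr h)))
      · cases k with
        | zero =>
          left
          have hr : r = 0 ∨ r = 1 ∨ r = 2 := by
            fin_cases r <;> simp
          rcases hr with rfl | rfl | rfl
          · exact Or.inr (Or.inr (Or.inl h))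
          · exact Or.inr (Or.inl h)
          · exact Or.inl h
        | succ k =>
          right
          refine ⟨⟨k, by simpa using hk⟩, r, ?_⟩
          have e1 : j + 1 + k = j + (k + 1) := by ring
          rw [e1]
          exact h

lemma mem_red_edges (F : List (ℕ × ℕ × ℕ)) (e : ℕ × ℕ) :
    e ∈ (red F).edges ↔ ∃ (j : Fin F.length) (r : Fin 3),
      e ∈ wireEdges j.val r.val (lit F j r) := by
  change e ∈ go 0 F [] ↔ _
  rw [mem_go]
  simp

lemma wire_lt : ∀ e ∈ wire, e.1 < 12 ∧ e.2 < 12 := by decide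

lemma arc_iff (F : List (ℕ × ℕ × ℕ)) (v w : Vx F.length) :
    (nm v, nm w) ∈ (red F).edges ↔ Arc F v w := by
  rw [mem_red_edges]
  constructor
  · rintro ⟨j, r, h⟩
    simp only [wireEdges, List.mem_cons, List.mem_map, Prod.mk.injEq, Prod.exists] at h
    rcases h with ⟨h1, h2⟩ | ⟨h1, h2⟩ | ⟨x, y, hxy, h1, h2⟩
    · have hv : ∃ u, v = .var u ∧ u.val = lit F j r := by
        have e1 := nm_eq v
        have e2 := off_lt v
        have e3 : off v = 0 := by omega
        rcases v with u | j' | ⟨j', r', i'⟩ | ⟨j', r', i'⟩ <;> simp only [nm, off] at h1 e3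
        · exact ⟨u, rfl, by omega⟩
        · omega
        · omega
        · omega
      have hw : w = .gy j r 1 := nm_inj (by
        rw [h2]; simp only [nm, Fin.val_one])
      obtain ⟨u, rfl, hu⟩ := hv
      subst hw
      exact ⟨rfl, hu.symm⟩
    · have hv : v = .gx j r 0 := nm_inj (by
        rw [h1]; simp only [nm, Fin.val_zero]; omega)
      have hw : w = .cls j := nm_inj (by rw [h2]; rfl)
      subst hv hw
      exact ⟨rfl, rfl⟩
    · have hlt := wire_lt _ hxy
      have hv : v = .gx j r ⟨x, hlt.1⟩ := nm_inj (by rw [← h1]; rfl)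
      have hw : w = .gy j r ⟨y, hlt.2⟩ := nm_inj (by rw [← h2]; rfl)
      subst hv hw
      exact ⟨rfl, rfl, hxy⟩
  · intro h
    rcases v with u | j | ⟨j, r, i⟩ | ⟨j, r, i⟩ <;> rcases w with u' | j' | ⟨j', r', i'⟩ | ⟨j', r', i'⟩ <;>
      simp only [Arc] at h
    · obtain ⟨rfl, h⟩ := h
      refine ⟨j', r', ?_⟩
      simp only [wireEdges, List.mem_cons, nm, h]
      left
      rfl
    · obtain ⟨rfl, rfl⟩ := h
      refine ⟨j, r, ?_⟩
      simp only [wireEdges, List.mem_cons, nm, Fin.val_zero]
      right; left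
      simp only [Prod.mk.injEq, and_true]
      omega
    · obtain ⟨rfl, rfl, h⟩ := h
      refine ⟨j, r, ?_⟩
      simp only [wireEdges, List.mem_cons, nm, List.mem_map]
      right; right
      exact ⟨_, h, rfl⟩

/-- The graph of the reduction is isomorphic to the abstract one. -/
noncomputable def iso (F : List (ℕ × ℕ × ℕ)) : AG F ≃g (red F).graph where
  toEquiv := nmEquiv F.length
  map_rel_iff' := by
    intro v w
    change ((nmEquiv F.length v ≠ nmEquiv F.length w) ∧
      ((nm v, nm w) ∈ (red F).edges ∨ (nm w, nm v) ∈ (red F).edges)) ↔ _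
    rw [arc_iff, arc_iff]
    constructor
    · exact fun h => h.2
    · intro h
      refine ⟨?_, h⟩
      intro he
      have := (nmEquiv F.length).injective he
      subst this
      exact (AG F).loopless.irrefl _ h

/-! ### Transfer along isomorphisms -/

lemma cubic_iso {V W : Type} {G : SimpleGraph V} {H : SimpleGraph W} (e : G ≃g H)
    (h : Cubic G) : Cubic H := by
  intro w
  have h1 := h (e.symm w)
  rw [← h1]
  have : H.neighborSet w = e '' G.neighborSet (e.symm w) := by
    ext x
    simp only [SimpleGraph.mem_neighborSet, Set.mem_image]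
    constructor
    · intro hx
      refine ⟨e.symm x, ?_, by simp⟩
      exact (e.symm.map_adj_iff).2 hx
    · rintro ⟨y, hy, rfl⟩
      have := (e.map_adj_iff).2 hy
      simpa using this
  rw [this, Set.ncard_image_of_injective _ e.injective]

lemma colorable_iso {V W : Type} {G : SimpleGraph V} {H : SimpleGraph W} (e : G ≃g H) {n : ℕ}
    (h : G.Colorable n) : H.Colorable n :=
  h.of_hom e.symm.toHom

lemma isOpenPacking_iso {V W : Type} {G : SimpleGraph V} {H : SimpleGraph W} (e : G ≃g H)
    {S : Finset V} (h : IsOpenPacking G S) : IsOpenPacking H (S.map e.toEquiv.toEmbedding) := by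
  intro u hu v hv huv w hw
  simp only [Finset.mem_map, Equiv.coe_toEmbedding] at hu hv
  obtain ⟨u', hu', rfl⟩ := hu
  obtain ⟨v', hv', rfl⟩ := hv
  refine h u' hu' v' hv' (fun hh => huv (by rw [hh])) (e.symm w) ⟨?_, ?_⟩
  · have := (e.symm.map_adj_iff).2 hw.1
    simpa using this
  · have := (e.symm.map_adj_iff).2 hw.2
    simpa using this

lemma exists_packing_iso {V W : Type} {G : SimpleGraph V} {H : SimpleGraph W} (e : G ≃g H)
    (k : ℕ) : (∃ S : Finset V, IsOpenPacking G S ∧ k ≤ S.card) ↔
      ∃ S : Finset W, IsOpenPacking H S ∧ k ≤ S.card := by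
  constructor
  · rintro ⟨S, h1, h2⟩
    exact ⟨_, isOpenPacking_iso e h1, by rwa [Finset.card_map]⟩
  · rintro ⟨S, h1, h2⟩
    exact ⟨_, isOpenPacking_iso e.symm h1, by rwa [Finset.card_map]⟩

lemma planar_iso {V W : Type} {G : SimpleGraph V} {H : SimpleGraph W} (e : G ≃g H)
    (h : Planar G) : Planar H := by
  obtain ⟨p, h1, h2, h3⟩ := h
  refine ⟨p ∘ e.symm, h1.comp e.symm.injective, ?_, ?_⟩
  · intro a b v hab hv
    have := h2 (e.symm a) (e.symm b) (e.symm v) ((e.symm.map_adj_iff).2 hab) hv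
    simpa using this
  · intro a b c d hab hcd hne z hz hz'
    obtain ⟨v, hv1, hv2, hv3⟩ := h3 (e.symm a) (e.symm b) (e.symm c) (e.symm d)
      ((e.symm.map_adj_iff).2 hab) ((e.symm.map_adj_iff).2 hcd) (by
        intro hh
        apply hne
        have := congrArg (Sym2.map e) hh
        simpa [Sym2.map_mk] using this) z hz hz'
    refine ⟨e v, ?_, ?_, ?_⟩
    · rcases hv1 with h | h
      · left; rw [h]; simp
      · right; rw [h]; simp
    · rcases hv2 with h | h
      · left; rw [h]; simp
      · right; rw [h]; simp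
    · rw [hv3]; simp

end Pool.Agent.Lib.MP_7e9d2b_lc
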