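import Pool.Agent.Lib.MP_7e9d2b_lc.Abs

/-!
The combinatorial core of the reduction: the abstract output graph is cubic and bipartite, and it
has an open packing with at least `22 m + ⌈m / 3⌉` elements iff the formula is one-in-three
satisfiable.
-/

namespace Pool.Agent.Lib.MP_7e9d2b_lc

section adj
variable {F : List (ℕ × ℕ × ℕ)} {u v j k : Fin F.length} {r s : Fin 3} {x y : Fin 12}

@[simp] theorem adj_var_var : ¬ (AG F).Adj (.var u) (.var v) := by simp [AG, Arc]
@[simp] theorem adj_var_cls : ¬ (AG F).Adj (.var u) (.cls j) := by simp [AG, Arc]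
@[simp] theorem adj_var_gx : ¬ (AG F).Adj (.var u) (.gx j r x) := by simp [AG, Arc]
@[simp] theorem adj_var_gy : (AG F).Adj (.var u) (.gy j r y) ↔ y = 1 ∧ lit F j r = u.val := by
  simp [AG, Arc]
@[simp] theorem adj_cls_var : ¬ (AG F).Adj (.cls j) (.var v) := by simp [AG, Arc]
@[simp] theorem adj_cls_cls : ¬ (AG F).Adj (.cls j) (.cls k) := by simp [AG, Arc]
@[simp] theorem adj_cls_gx : (AG F).Adj (.cls k) (.gx j r x) ↔ x = 0 ∧ j = k := by
  simp [AG, Arc]
@[simp] theorem adj_cls_gy : ¬ (AG F).Adj (.cls j) (.gy k s y) := by simp [AG, Arc]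
@[simp] theorem adj_gx_var : ¬ (AG F).Adj (.gx j r x) (.var v) := by simp [AG, Arc]
@[simp] theorem adj_gx_cls : (AG F).Adj (.gx j r x) (.cls k) ↔ x = 0 ∧ j = k := by
  simp [AG, Arc]
@[simp] theorem adj_gx_gx : ¬ (AG F).Adj (.gx j r x) (.gx k s y) := by simp [AG, Arc]
@[simp] theorem adj_gx_gy :
    (AG F).Adj (.gx j r x) (.gy k s y) ↔ (j = k ∧ r = s) ∧ (x.val, y.val) ∈ wire := by
  simp [AG, Arc, and_assoc]
@[simp] theorem adj_gy_var : (AG F).Adj (.gy j r y) (.var u) ↔ y = 1 ∧ lit F j r = u.val := by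
  simp [AG, Arc]
@[simp] theorem adj_gy_cls : ¬ (AG F).Adj (.gy j r y) (.cls k) := by simp [AG, Arc]
@[simp] theorem adj_gy_gx :
    (AG F).Adj (.gy k s y) (.gx j r x) ↔ (j = k ∧ r = s) ∧ (x.val, y.val) ∈ wire := by
  simp [AG, Arc, and_assoc]
@[simp] theorem adj_gy_gy : ¬ (AG F).Adj (.gy j r x) (.gy k s y) := by simp [AG, Arc]

end adj

/-! ### Bipartite -/

theorem ag_bip (F : List (ℕ × ℕ × ℕ)) : (AG F).Colorable 2 := by
  refine ⟨SimpleGraph.Coloring.mk (fun v => match v with
    | .var _ => (0 : Fin 2) | .gx _ _ _ => 0 | .cls _ => 1 | .gy _ _ _ => 1) ?_⟩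
  rintro (u | u | ⟨u, r, i⟩ | ⟨u, r, i⟩) (v | v | ⟨v, s, k⟩ | ⟨v, s, k⟩) h <;> simp_all

/-! ### Cubic -/

theorem wire_row : ∀ x : Fin 12,
    (Finset.univ.filter fun y : Fin 12 => (x.val, y.val) ∈ wire).card +
      (if x = 0 then 1 else 0) = 3 := by decide +kernel

theorem wire_col : ∀ y : Fin 12,
    (Finset.univ.filter fun x : Fin 12 => (x.val, y.val) ∈ wire).card +
      (if y = 1 then 1 else 0) = 3 := by decide +kernel

theorem occ_card {F : List (ℕ × ℕ × ℕ)} (hF : CubicFormula F) (u : ℕ) (hu : u < F.length) :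
    (Finset.univ.filter fun p : Fin F.length × Fin 3 => lit F p.1 p.2 = u).card = 3 := by
  obtain ⟨-, -, hinj, hocc⟩ := hF
  refine Eq.trans ?_ (hocc u hu)
  rw [← Set.ncard_coe_finset]
  rw [← Set.InjOn.ncard_image (f := Prod.fst)
    (s := ((Finset.univ.filter fun p : Fin F.length × Fin 3 => lit F p.1 p.2 = u : Finset _) :
      Set (Fin F.length × Fin 3)))]
  · congr 1
    ext j
    simp
  · rintro ⟨j, r⟩ h ⟨k, s⟩ h' (hjk : j = k)
    subst hjk
    simp only [Finset.coe_filter, Finset.mem_univ, true_and, Set.mem_ofPred_eq] at h h'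
    have := hinj j (h.trans h'.symm)
    rw [this]

theorem ag_cubic {F : List (ℕ × ℕ × ℕ)} (hF : CubicFormula F) : Cubic (AG F) := by
  classical
  rintro (u | j | ⟨j, r, x⟩ | ⟨j, r, y⟩)
  · have h : (AG F).neighborSet (.var u) =
        ((Finset.univ.filter fun p : Fin F.length × Fin 3 => lit F p.1 p.2 = u.val).image
          (fun p => Vx.gy p.1 p.2 1) : Finset _) := by
      ext (v | v | ⟨v, s, k⟩ | ⟨v, s, k⟩) <;> simp [and_comm, eq_comm]
    rw [h, Set.ncard_coe_finset, Finset.card_image_of_injective, occ_card hF u.val u.isLt]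
    rintro ⟨a, b⟩ ⟨c, d⟩ h
    simpa using h
  · have h : (AG F).neighborSet (.cls j) =
        ((Finset.univ : Finset (Fin 3)).image (fun r => Vx.gx j r 0) : Finset _) := by
      ext (v | v | ⟨v, s, k⟩ | ⟨v, s, k⟩) <;> simp
      constructor
      · rintro ⟨rfl, rfl⟩
        exact ⟨rfl, rfl⟩
      · rintro ⟨rfl, rfl⟩
        exact ⟨rfl, rfl⟩
    rw [h, Set.ncard_coe_finset, Finset.card_image_of_injective]
    · simp
    · intro a b h
      simpa using h
  · have h : (AG F).neighborSet (.gx j r x) =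
        ((Finset.univ.filter fun y : Fin 12 => (x.val, y.val) ∈ wire).image (Vx.gy j r) ∪
          (if x = 0 then {Vx.cls j} else ∅) : Finset _) := by
      ext (v | v | ⟨v, s, k⟩ | ⟨v, s, k⟩) <;> split_ifs <;> simp_all <;> tauto
    rw [h, Set.ncard_coe_finset, Finset.card_union_of_disjoint,
      Finset.card_image_of_injective, ← wire_row x]
    · split_ifs <;> simp
    · intro a b h
      simpa using h
    · split_ifs <;> simp
  · obtain ⟨u, hu⟩ : ∃ u : Fin F.length, lit F j r = u.val := ⟨⟨lit F j r, hF.2.1 j r⟩, rfl⟩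
    have h : (AG F).neighborSet (.gy j r y) =
        ((Finset.univ.filter fun x : Fin 12 => (x.val, y.val) ∈ wire).image (Vx.gx j r) ∪
          (if y = 1 then {Vx.var u} else ∅) : Finset _) := by
      ext (v | v | ⟨v, s, k⟩ | ⟨v, s, k⟩)
      · simp only [SimpleGraph.mem_neighborSet, adj_gy_var, hu]
        split_ifs with hy <;> simp [hy, Fin.ext_iff, eq_comm]
      · split_ifs <;> simp
      · split_ifs <;> simp <;> tauto
      · split_ifs <;> simp
    rw [h, Set.ncard_coe_finset, Finset.card_union_of_disjoint,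
      Finset.card_image_of_injective, ← wire_col y]
    · split_ifs <;> simp
    · intro a b h
      simpa using h
    · split_ifs <;> simp

/-! ### Counting -/

/-- The vertices as a sum type. -/
def vxEquiv (m : ℕ) :
    Vx m ≃ (Fin m ⊕ Fin m) ⊕ ((Fin m × Fin 3) × Fin 12 ⊕ (Fin m × Fin 3) × Fin 12) where
  toFun
    | .var u => .inl (.inl u)
    | .cls j => .inl (.inr j)
    | .gx j r i => .inr (.inl ((j, r), i))
    | .gy j r i => .inr (.inr ((j, r), i))
  invFun
    | .inl (.inl u) => .var u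
    | .inl (.inr j) => .cls j
    | .inr (.inl ((j, r), i)) => .gx j r i
    | .inr (.inr ((j, r), i)) => .gy j r i
  left_inv := by rintro (u | u | ⟨u, r, i⟩ | ⟨u, r, i⟩) <;> rfl
  right_inv := by rintro ((u | u) | (⟨⟨u, r⟩, i⟩ | ⟨⟨u, r⟩, i⟩)) <;> rfl

/-- Indicator function. -/
def ind {V : Type} [DecidableEq V] (S : Finset V) (v : V) : ℕ := if v ∈ S then 1 else 0

theorem ind_le {V : Type} [DecidableEq V] (S : Finset V) (v : V) : ind S v ≤ 1 := by
  unfold ind; split_ifs <;> simp

theorem card_eq {m : ℕ} (S : Finset (Vx m)) : S.card =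
    (∑ u, ind S (.var u) + ∑ j, ind S (.cls j)) +
    (∑ p : Fin m × Fin 3, ∑ i, ind S (.gx p.1 p.2 i) +
      ∑ p : Fin m × Fin 3, ∑ i, ind S (.gy p.1 p.2 i)) := by
  have h : S.card = ∑ v, ind S v := by
    simp [ind]
  rw [h, ← (vxEquiv m).symm.sum_comp, Fintype.sum_sum_type, Fintype.sum_sum_type,
    Fintype.sum_sum_type,
    Fintype.sum_prod_type (f := fun a => ind S ((vxEquiv m).symm (Sum.inr (Sum.inl a)))),
    Fintype.sum_prod_type (f := fun a => ind S ((vxEquiv m).symm (Sum.inr (Sum.inr a))))]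
  rfl

theorem double_count {F : List (ℕ × ℕ × ℕ)} (hF : CubicFormula F) (f : ℕ → ℕ) :
    ∑ p : Fin F.length × Fin 3, f (lit F p.1 p.2) = 3 * ∑ u : Fin F.length, f u.val := by
  have h1 : ∀ p : Fin F.length × Fin 3, f (lit F p.1 p.2) =
      ∑ u : Fin F.length, if lit F p.1 p.2 = u.val then f u.val else 0 := by
    intro p
    rw [Finset.sum_eq_single (⟨lit F p.1 p.2, hF.2.1 _ _⟩ : Fin F.length)]
    · simp
    · intro b _ hb
      rw [if_neg]
      intro h
      exact hb (Fin.ext h.symm)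
    · simp
  rw [Finset.sum_congr rfl fun p _ => h1 p, Finset.sum_comm, Finset.mul_sum]
  refine Finset.sum_congr rfl fun u _ => ?_
  rw [← Finset.sum_filter, Finset.sum_const, occ_card hF u.val u.isLt, smul_eq_mul]

/-! ### From an assignment to a packing -/

/-- The chosen gadget vertices on the side of the variables. -/
def selX (b : Bool) (i : Fin 12) : Bool :=
  if b then i = 0 || i = 2 || i = 8 || i = 9 else i = 1 || i = 3 || i = 7 || i = 11

/-- The chosen gadget vertices on the side of the clauses. -/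
def selY (i : Fin 12) : Bool := i = 0 || i = 3 || i = 4

theorem selX_card : ∀ b, (∑ i : Fin 12, if selX b i = true then 1 else 0) = 4 := by decide
theorem selY_card : (∑ i : Fin 12, if selY i = true then 1 else 0) = 3 := by decide
theorem selX_zero : ∀ b, selX b 0 = b := by decide
theorem selY_one : selY 1 = false := by decide
theorem selX_pack : ∀ (b : Bool) (y x x' : Fin 12), selX b x = true → selX b x' = true →
    (x.val, y.val) ∈ wire → (x'.val, y.val) ∈ wire → x = x' := by decide +kernel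
theorem selX_out : ∀ x : Fin 12, selX true x = true → (x.val, ((1 : Fin 12) : ℕ)) ∉ wire := by
  decide +kernel
theorem selY_pack : ∀ (x y y' : Fin 12), selY y = true → selY y' = true →
    (x.val, y.val) ∈ wire → (x.val, y'.val) ∈ wire → y = y' := by decide +kernel
theorem selY_out : ∀ y : Fin 12, selY y = true → (((0 : Fin 12) : ℕ), y.val) ∉ wire := by
  decide +kernel

/-- Membership in the packing built from an assignment. -/
def sel (F : List (ℕ × ℕ × ℕ)) (val : ℕ → Bool) : Vx F.length → Bool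
  | .var u => val u.val
  | .cls _ => true
  | .gx j r i => selX (val (lit F j r)) i
  | .gy _ _ i => selY i

theorem sel_packing {F : List (ℕ × ℕ × ℕ)} (val : ℕ → Bool)
    (hval : ∀ j, ∃! r, val (lit F j r) = true) (a b w : Vx F.length)
    (ha : sel F val a = true) (hb : sel F val b = true) (hab : a ≠ b)
    (haw : (AG F).Adj a w) (hbw : (AG F).Adj b w) : False := by
  rcases w with (u | j | ⟨j, r, x⟩ | ⟨j, r, y⟩)
  · rcases a with (v | v | ⟨v, s, k⟩ | ⟨v, s, k⟩) <;> simp at haw
    obtain ⟨rfl, -⟩ := haw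
    simp [sel, selY_one] at ha
  · rcases a with (v | v | ⟨v, s, k⟩ | ⟨v, s, k⟩) <;> simp at haw
    rcases b with (v' | v' | ⟨v', s', k'⟩ | ⟨v', s', k'⟩) <;> simp at hbw
    obtain ⟨rfl, rfl⟩ := haw
    obtain ⟨rfl, rfl⟩ := hbw
    simp only [sel, selX_zero] at ha hb
    exact hab (by rw [(hval v').unique ha hb])
  · rcases a with (v | v | ⟨v, s, k⟩ | ⟨v, s, k⟩) <;> simp at haw <;>
    rcases b with (v' | v' | ⟨v', s', k'⟩ | ⟨v', s', k'⟩) <;> simp at hbw
    · exact hab (by rw [← haw.2, ← hbw.2])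
    · obtain ⟨rfl, rfl⟩ := haw
      exact selY_out _ hb hbw.2
    · obtain ⟨rfl, rfl⟩ := hbw
      exact selY_out _ ha haw.2
    · obtain ⟨⟨rfl, rfl⟩, h1⟩ := haw
      obtain ⟨⟨rfl, rfl⟩, h2⟩ := hbw
      exact hab (by rw [selY_pack _ _ _ ha hb h1 h2])
  · rcases a with (v | v | ⟨v, s, k⟩ | ⟨v, s, k⟩) <;> simp at haw <;>
    rcases b with (v' | v' | ⟨v', s', k'⟩ | ⟨v', s', k'⟩) <;> simp at hbw
    · exact hab (by rw [Fin.ext (haw.2.symm.trans hbw.2)])
    · obtain ⟨⟨rfl, rfl⟩, h⟩ := hbw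
      obtain ⟨rfl, h'⟩ := haw
      simp only [sel] at ha hb
      rw [h', ha] at hb
      exact selX_out _ hb h
    · obtain ⟨⟨rfl, rfl⟩, h⟩ := haw
      obtain ⟨rfl, h'⟩ := hbw
      simp only [sel] at ha hb
      rw [h', hb] at ha
      exact selX_out _ ha h
    · obtain ⟨⟨rfl, rfl⟩, h1⟩ := haw
      obtain ⟨⟨rfl, rfl⟩, h2⟩ := hbw
      exact hab (by rw [selX_pack _ _ _ _ ha hb h1 h2])

theorem clause_sum {F : List (ℕ × ℕ × ℕ)} (val : ℕ → Bool)
    (hval : ∀ j, ∃! r, val (lit F j r) = true) :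
    ∑ p : Fin F.length × Fin 3, (if val (lit F p.1 p.2) = true then 1 else 0) = F.length := by
  rw [Fintype.sum_prod_type]
  have : ∀ j, ∑ r, (if val (lit F j r) = true then 1 else 0) = 1 := by
    intro j
    obtain ⟨r, hr, hr'⟩ := hval j
    rw [Finset.sum_eq_single r]
    · simp [hr]
    · intro b _ hb
      rw [if_neg]
      intro h
      exact hb (hr' b h)
    · simp
  rw [Finset.sum_congr rfl fun j _ => this j]
  simp

theorem packing_of_sat {F : List (ℕ × ℕ × ℕ)} (hF : CubicFormula F) (h : OneInThree F) :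
    ∃ S : Finset (Vx F.length), IsOpenPacking (AG F) S ∧
      22 * F.length + (F.length + 2) / 3 ≤ S.card := by
  obtain ⟨val, hval⟩ := h
  obtain ⟨S, hS⟩ : ∃ S : Finset (Vx F.length), ∀ v, v ∈ S ↔ sel F val v = true :=
    ⟨Finset.univ.filter fun v => sel F val v = true, by simp⟩
  refine ⟨S, ?_, ?_⟩
  · intro a ha b hb hab w ⟨haw, hbw⟩
    rw [hS] at ha hb
    exact sel_packing val hval a b w ha hb hab haw hbw
  · rw [card_eq]
    simp only [ind, hS, sel, selX_card, selY_card]
    have h1 := double_count hF fun n => if val n = true then 1 else 0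
    rw [clause_sum val hval] at h1
    simp only [Finset.sum_const, Finset.card_univ, Fintype.card_prod, Fintype.card_fin,
      smul_eq_mul, if_true]
    omega

/-! ### From a packing to an assignment -/

theorem pack3 {V : Type} [DecidableEq V] {G : SimpleGraph V} {S : Finset V}
    (hS : IsOpenPacking G S) {a b c : V} (w : V) (hab : a ≠ b) (hac : a ≠ c) (hbc : b ≠ c)
    (ha : G.Adj a w) (hb : G.Adj b w) (hc : G.Adj c w) : ind S a + ind S b + ind S c ≤ 1 := by
  have h1 := fun h1 h2 => hS a h1 b h2 hab w ⟨ha, hb⟩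
  have h2 := fun h1 h2 => hS a h1 c h2 hac w ⟨ha, hc⟩
  have h3 := fun h1 h2 => hS b h1 c h2 hbc w ⟨hb, hc⟩
  unfold ind
  split_ifs <;> first | omega | (exfalso; tauto)

theorem sum12 (f : Fin 12 → ℕ) : ∑ i, f i =
    f 0 + f 1 + f 2 + f 3 + f 4 + f 5 + f 6 + f 7 + f 8 + f 9 + f 10 + f 11 := by
  simp only [Fin.sum_univ_succ, Fin.sum_univ_zero]
  simp
  omega

theorem packX {F : List (ℕ × ℕ × ℕ)} {S : Finset (Vx F.length)} (hS : IsOpenPacking (AG F) S)
    (j : Fin F.length) (r : Fin 3) (y a b c : Fin 12)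
    (h : a ≠ b ∧ a ≠ c ∧ b ≠ c ∧ (a.val, y.val) ∈ wire ∧ (b.val, y.val) ∈ wire ∧
      (c.val, y.val) ∈ wire) :
    ind S (.gx j r a) + ind S (.gx j r b) + ind S (.gx j r c) ≤ 1 := by
  obtain ⟨h1, h2, h3, h4, h5, h6⟩ := h
  exact pack3 hS (.gy j r y) (by simpa) (by simpa) (by simpa) (by simpa) (by simpa) (by simpa)

theorem packY {F : List (ℕ × ℕ × ℕ)} {S : Finset (Vx F.length)} (hS : IsOpenPacking (AG F) S)
    (j : Fin F.length) (r : Fin 3) (x a b c : Fin 12)
    (h : a ≠ b ∧ a ≠ c ∧ b ≠ c ∧ (x.val, a.val) ∈ wire ∧ (x.val, b.val) ∈ wire ∧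
      (x.val, c.val) ∈ wire) :
    ind S (.gy j r a) + ind S (.gy j r b) + ind S (.gy j r c) ≤ 1 := by
  obtain ⟨h1, h2, h3, h4, h5, h6⟩ := h
  exact pack3 hS (.gx j r x) (by simpa) (by simpa) (by simpa) (by simpa) (by simpa) (by simpa)

/-- The wire inequality on the side of the variables. -/
theorem wireX {F : List (ℕ × ℕ × ℕ)} {S : Finset (Vx F.length)} (hS : IsOpenPacking (AG F) S)
    (j : Fin F.length) (r : Fin 3) (u : Fin F.length) (hu : lit F j r = u.val) :
    ind S (.var u) + 3 * ∑ i, ind S (.gx j r i) ≤ 12 + ind S (.gx j r 0) := by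
  have h0 := packX hS j r 0 1 9 10 (by decide)
  have h1 : ind S (.gx j r 3) + ind S (.gx j r 6) + ind S (.var u) ≤ 1 :=
    pack3 hS (.gy j r 1) (by simp) (by simp) (by simp) (by simp; decide) (by simp; decide)
      (by simpa)
  have h2 := packX hS j r 2 0 1 6 (by decide)
  have h3 := packX hS j r 3 2 3 4 (by decide)
  have h4 := packX hS j r 4 5 8 11 (by decide)
  have h5 := packX hS j r 5 5 7 8 (by decide)
  have h6 := packX hS j r 6 4 7 9 (by decide)
  have h7 := packX hS j r 7 2 7 10 (by decide)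
  have h8 := packX hS j r 8 4 8 11 (by decide)
  have h9 := packX hS j r 9 1 6 9 (by decide)
  have h10 := packX hS j r 10 0 3 10 (by decide)
  have h11 := packX hS j r 11 2 5 11 (by decide)
  rw [sum12]
  omega

/-- Not two of three. -/
def le1 (a b c : Bool) : Bool := !(a && b) && !(a && c) && !(b && c)

theorem ycheck : ∀ b0 b1 b2 b3 b4 b5 b6 b7 b8 b9 b10 b11 : Bool,
    (le1 b0 b2 b9 && le1 b3 b7 b11 && le1 b1 b3 b10 && le1 b3 b6 b8 && le1 b4 b5 b11 &&
      le1 b1 b2 b9 && le1 b5 b6 b7 && le1 b4 b5 b8 && le1 b0 b6 b9 && le1 b0 b7 b10 &&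
      le1 b4 b8 b11 && !(b2 && b10)) = true →
    b0.toNat + b1.toNat + b2.toNat + b3.toNat + b4.toNat + b5.toNat + b6.toNat + b7.toNat +
      b8.toNat + b9.toNat + b10.toNat + b11.toNat ≤ 3 := by
  decide +kernel

theorem le1_of {a b c : Bool} (h : a.toNat + b.toNat + c.toNat ≤ 1) : le1 a b c = true := by
  revert h; revert a b c; decide

theorem ind_eq_toNat {V : Type} [DecidableEq V] (S : Finset V) (v : V) :
    ind S v = (decide (v ∈ S)).toNat := by
  unfold ind; split_ifs with h <;> simp [h]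

/-- The wire inequality on the side of the clauses. -/
theorem wireY {F : List (ℕ × ℕ × ℕ)} {S : Finset (Vx F.length)} (hS : IsOpenPacking (AG F) S)
    (j : Fin F.length) (r : Fin 3) : ∑ i, ind S (.gy j r i) ≤ 3 := by
  have h1 := packY hS j r 1 0 2 9 (by decide)
  have h2 := packY hS j r 2 3 7 11 (by decide)
  have h3 := packY hS j r 3 1 3 10 (by decide)
  have h4 := packY hS j r 4 3 6 8 (by decide)
  have h5 := packY hS j r 5 4 5 11 (by decide)
  have h6 := packY hS j r 6 1 2 9 (by decide)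
  have h7 := packY hS j r 7 5 6 7 (by decide)
  have h8 := packY hS j r 8 4 5 8 (by decide)
  have h9 := packY hS j r 9 0 6 9 (by decide)
  have h10 := packY hS j r 10 0 7 10 (by decide)
  have h11 := packY hS j r 11 4 8 11 (by decide)
  have h0 : ¬ (Vx.gy j r 2 ∈ S ∧ Vx.gy j r 10 ∈ S) := fun h =>
    hS _ h.1 _ h.2 (by simp) (.gx j r 0) ⟨by simp; decide, by simp; decide⟩
  rw [sum12]
  simp only [ind_eq_toNat] at *
  refine ycheck _ _ _ _ _ _ _ _ _ _ _ _ ?_
  rw [le1_of h1, le1_of h2, le1_of h3, le1_of h4, le1_of h5, le1_of h6, le1_of h7, le1_of h8,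
    le1_of h9, le1_of h10, le1_of h11]
  simpa [imp_iff_not_or] using h0

theorem sat_of_packing {F : List (ℕ × ℕ × ℕ)} (hF : CubicFormula F) {S : Finset (Vx F.length)}
    (hS : IsOpenPacking (AG F) S) (hcard : 22 * F.length + (F.length + 2) / 3 ≤ S.card) :
    OneInThree F := by
  -- the values of the variables
  let f : ℕ → ℕ := fun n => if h : n < F.length then ind S (.var ⟨n, h⟩) else 0
  have hf : ∀ u : Fin F.length, f u.val = ind S (.var u) := by
    intro u
    simp only [f, u.isLt, dite_true]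
  have hf1 : ∀ n, f n ≤ 1 := by
    intro n
    simp only [f]
    split_ifs
    · exact ind_le _ _
    · simp
  have hX : ∀ p : Fin F.length × Fin 3, f (lit F p.1 p.2) + 3 * ∑ i, ind S (.gx p.1 p.2 i) ≤
      12 + ind S (.gx p.1 p.2 0) := by
    intro p
    have h := wireX hS p.1 p.2 ⟨lit F p.1 p.2, hF.2.1 _ _⟩ rfl
    rwa [← hf] at h
  have hY : ∀ p : Fin F.length × Fin 3, ∑ i, ind S (.gy p.1 p.2 i) ≤ 3 := fun p => wireY hS p.1 p.2
  have hZ : ∀ j : Fin F.length, ∑ r, ind S (.gx j r 0) ≤ 1 := by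
    intro j
    rw [Fin.sum_univ_three]
    exact pack3 hS (a := .gx j 0 0) (b := .gx j 1 0) (c := .gx j 2 0) (.cls j) (by simp)
      (by simp) (by simp) (by simp) (by simp) (by simp)
  -- sums
  have sX := Finset.sum_le_sum fun p (_ : p ∈ (Finset.univ : Finset (Fin F.length × Fin 3))) => hX p
  have sY := Finset.sum_le_sum fun p (_ : p ∈ (Finset.univ : Finset (Fin F.length × Fin 3))) => hY p
  have sZ := Finset.sum_le_sum fun j (_ : j ∈ (Finset.univ : Finset (Fin F.length))) => hZ j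
  have sC := Finset.sum_le_sum fun j (_ : j ∈ (Finset.univ : Finset (Fin F.length))) =>
    ind_le S (.cls j)
  have hdc := double_count hF f
  rw [Finset.sum_congr rfl fun u _ => hf u] at hdc
  rw [card_eq] at hcard
  have hZ' : ∑ p : Fin F.length × Fin 3, ind S (.gx p.1 p.2 0) = ∑ j, ∑ r, ind S (.gx j r 0) :=
    Fintype.sum_prod_type _
  simp only [Finset.sum_add_distrib, ← Finset.mul_sum, Finset.sum_const, Finset.card_univ,
    Fintype.card_prod, Fintype.card_fin, smul_eq_mul] at sX sY sZ sC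
  have eZ : ∑ j, ∑ r, ind S (.gx j r 0) = ∑ j : Fin F.length, 1 := by
    simp only [Finset.sum_const, Finset.card_univ, Fintype.card_fin, smul_eq_mul]
    omega
  have eX : ∑ p : Fin F.length × Fin 3, (f (lit F p.1 p.2) + 3 * ∑ i, ind S (.gx p.1 p.2 i)) =
      ∑ p : Fin F.length × Fin 3, (12 + ind S (.gx p.1 p.2 0)) := by
    simp only [Finset.sum_const, Finset.card_univ, Fintype.card_fin, smul_eq_mul] at eZ
    simp only [Finset.sum_add_distrib, ← Finset.mul_sum, Finset.sum_const, Finset.card_univ,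
      Fintype.card_prod, Fintype.card_fin, smul_eq_mul]
    omega
  have tZ := (Finset.sum_eq_sum_iff_of_le fun j _ => hZ j).1 eZ
  have tX := (Finset.sum_eq_sum_iff_of_le fun p _ => hX p).1 eX
  refine ⟨fun n => decide (f n = 1), fun j => ?_⟩
  have e : ∀ r, f (lit F j r) = ind S (.gx j r 0) := by
    intro r
    have h1 := tX (j, r) (Finset.mem_univ _)
    have h2 := hf1 (lit F j r)
    have h3 := ind_le S (.gx j r 0)
    simp only at h1
    omega
  have hz := tZ j (Finset.mem_univ _)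
  rw [Fin.sum_univ_three, ← e, ← e, ← e] at hz
  simp only [decide_eq_true_eq]
  rcases Nat.eq_zero_or_pos (f (lit F j 0)) with h0 | h0
  · rcases Nat.eq_zero_or_pos (f (lit F j 1)) with h1 | h1
    · refine ⟨2, by simp only; omega, ?_⟩
      intro r hr
      fin_cases r
      · simp only [Fin.zero_eta] at hr; omega
      · simp only [Fin.mk_one] at hr; omega
      · rfl
    · refine ⟨1, by simp only; omega, ?_⟩
      intro r hr
      fin_cases r
      · simp only [Fin.zero_eta] at hr; omega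
      · rfl
      · simp only [Fin.reduceFinMk] at hr; omega
  · refine ⟨0, by simp only; omega, ?_⟩
    intro r hr
    fin_cases r
    · rfl
    · simp only [Fin.mk_one] at hr; omega
    · simp only [Fin.reduceFinMk] at hr; omega

/-- The combinatorial core of the reduction. -/
theorem ag_iff {F : List (ℕ × ℕ × ℕ)} (hF : CubicFormula F) : OneInThree F ↔
    ∃ S : Finset (Vx F.length), IsOpenPacking (AG F) S ∧
      22 * F.length + (F.length + 2) / 3 ≤ S.card :=
  ⟨packing_of_sat hF, fun ⟨_, hS, hc⟩ => sat_of_packing hF hS hc⟩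

end Pool.Agent.Lib.MP_7e9d2b_lc
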