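import Mathlib

/-!
Open packing in cubic planar bipartite graphs: definitions.

The source problem is monotone one-in-three satisfiability for formulas in which every variable
occurs in exactly three clauses and whose incidence graph is planar.
-/

namespace Pool.Agent.Lib.MP_7e9d2b_lc

/-! ### Planarity -/

/-- A straight-line drawing of `G` in the plane: the vertices are placed at pairwise different
points, an edge contains no vertex but its two ends, and two edges meet only in common ends. -/
def IsDrawing {V : Type} (G : SimpleGraph V) (p : V → ℝ × ℝ) : Prop :=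
  Function.Injective p ∧
  (∀ a b v, G.Adj a b → p v ∈ segment ℝ (p a) (p b) → v = a ∨ v = b) ∧
  ∀ a b c d, G.Adj a b → G.Adj c d → s(a, b) ≠ s(c, d) →
    ∀ z, z ∈ segment ℝ (p a) (p b) → z ∈ segment ℝ (p c) (p d) →
      ∃ v, (v = a ∨ v = b) ∧ (v = c ∨ v = d) ∧ z = p v

/-- A graph is planar if it has a straight-line drawing in the plane. -/
def Planar {V : Type} (G : SimpleGraph V) : Prop := ∃ p : V → ℝ × ℝ, IsDrawing G p

/-! ### Open packing -/

/-- An instance of Open Packing: the number `n` of vertices, the number `k`, and the list of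
edges. -/
structure Inst where
  /-- number of vertices -/
  n : ℕ
  /-- the size of the open packing asked for -/
  k : ℕ
  /-- the edges -/
  edges : List (ℕ × ℕ)

/-- The graph of an instance: the vertices are `0, …, n - 1`, and `u`, `v` are joined if they are
different and `(u, v)` or `(v, u)` is in the list. -/
def Inst.graph (I : Inst) : SimpleGraph (Fin I.n) where
  Adj u v := u ≠ v ∧ ((u.val, v.val) ∈ I.edges ∨ (v.val, u.val) ∈ I.edges)
  symm := ⟨fun _ _ h => ⟨h.1.symm, h.2.symm⟩⟩
  loopless := ⟨fun _ h => h.1 rfl⟩

/-- `S` is an open packing of `G`: no two distinct vertices of `S` have a common neighbour. -/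
def IsOpenPacking {V : Type} (G : SimpleGraph V) (S : Finset V) : Prop :=
  ∀ u ∈ S, ∀ v ∈ S, u ≠ v → ∀ w, ¬ (G.Adj u w ∧ G.Adj v w)

/-- `I` is a yes-instance: the graph has an open packing with at least `k` elements. -/
def Inst.Yes (I : Inst) : Prop :=
  ∃ S : Finset (Fin I.n), IsOpenPacking I.graph S ∧ I.k ≤ S.card

/-- `G` is cubic: every vertex has exactly three neighbours. -/
def Cubic {V : Type} (G : SimpleGraph V) : Prop := ∀ v, (G.neighborSet v).ncard = 3

/-! ### The source problem -/

/-- The variable at position `r` of clause number `j`. -/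
def lit (F : List (ℕ × ℕ × ℕ)) (j : Fin F.length) (r : Fin 3) : ℕ :=
  ![(F.get j).1, (F.get j).2.1, (F.get j).2.2] r

/-- The incidence graph: variable `u` (left) is joined to clause `j` (right) if it occurs in it. -/
def incidence (F : List (ℕ × ℕ × ℕ)) : SimpleGraph (Fin F.length ⊕ Fin F.length) where
  Adj
    | .inl u, .inr j => ∃ r, lit F j r = u.val
    | .inr j, .inl u => ∃ r, lit F j r = u.val
    | _, _ => False
  symm := ⟨by rintro (u | j) (v | k) h <;> exact h⟩
  loopless := ⟨by rintro (u | j) h <;> exact h⟩

/-- `F` has `m ≥ 1` clauses, the variables are `0, …, m - 1`, every clause has three different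
variables, every variable occurs in exactly three clauses. -/
def CubicFormula (F : List (ℕ × ℕ × ℕ)) : Prop :=
  F ≠ [] ∧ (∀ j r, lit F j r < F.length) ∧ (∀ j, Function.Injective (lit F j)) ∧
  ∀ u < F.length, {j | ∃ r, lit F j r = u}.ncard = 3

/-- `F` is one-in-three satisfiable: some assignment makes exactly one variable of each clause
true. -/
def OneInThree (F : List (ℕ × ℕ × ℕ)) : Prop :=
  ∃ val : ℕ → Bool, ∀ j, ∃! r, val (lit F j r) = true

/-! ### The reduction -/

/-- The wire: the 35 edges inside the gadget (first component: a vertex on the side of the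
variables, second component: a vertex on the side of the clauses). -/
def wire : List (ℕ × ℕ) :=
  [(0, 2), (0, 10), (1, 0), (1, 2), (1, 9), (2, 3), (2, 7), (2, 11), (3, 1), (3, 3), (3, 10),
   (4, 3), (4, 6), (4, 8), (5, 4), (5, 5), (5, 11), (6, 1), (6, 2), (6, 9), (7, 5), (7, 6),
   (7, 7), (8, 4), (8, 5), (8, 8), (9, 0), (9, 6), (9, 9), (10, 0), (10, 7), (10, 10), (11, 4),
   (11, 8), (11, 11)]

/-- The edges replacing the incidence of the variable `u` with clause `j` at position `r`.
Names of the vertices: variable `u` is `74 * u`, clause `j` is `74 * j + 37`, the `i`-th gadget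
vertex on the side of the variables is `74 * j + (1 + 12 * r + i)`, on the side of the clauses
`74 * j + (38 + 12 * r + i)`. -/
def wireEdges (j r u : ℕ) : List (ℕ × ℕ) :=
  (74 * u, 74 * j + (38 + 12 * r + 1)) :: (74 * j + (1 + 12 * r), 74 * j + 37) ::
    wire.map fun e => (74 * j + (1 + 12 * r + e.1), 74 * j + (38 + 12 * r + e.2))

/-- All edges, last clause first. -/
def go : ℕ → List (ℕ × ℕ × ℕ) → List (ℕ × ℕ) → List (ℕ × ℕ)
  | _, [], acc => acc
  | j, (a, b, c) :: F, acc =>
    go (j + 1) F (wireEdges j 2 c ++ (wireEdges j 1 b ++ (wireEdges j 0 a ++ acc)))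

/-- The reduction. -/
def red (F : List (ℕ × ℕ × ℕ)) : Inst where
  n := 74 * F.length
  k := 22 * F.length + (F.length + 2) / 3
  edges := go 0 F []

/-- Unary encoding of a number: `k` marks `true` followed by the delimiter `false`. -/
def un (k : ℕ) : List Bool := List.replicate k true ++ [false]

/-- Encoding of a formula (a list of triples of variable indices). -/
def encF (F : List (ℕ × ℕ × ℕ)) : List Bool := F.flatMap fun c => un c.1 ++ un c.2.1 ++ un c.2.2

/-- Encoding of an instance: `n`, `k` and the edges, all in unary. -/
def encI (I : Inst) : List Bool :=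
  un I.n ++ (un I.k ++ I.edges.flatMap fun e => un e.1 ++ un e.2)

end Pool.Agent.Lib.MP_7e9d2b_lc
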