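import Pool.Agent.Lib.MP_7e9d2b_lc.Abs

/-!
Straight-line drawings: glueing, kites, and the drawing of the wire.
-/

namespace Pool.Agent.Lib.MP_7e9d2b_lc

open Set Filter Topology

/-! ### Glueing drawings -/

/-- If a graph is covered by copies of a drawn graph, each copy is drawn by an injective affine map
into a convex set, and the convex sets of different copies meet only in common vertices, then the
whole is a drawing. -/
theorem glue {V E L : Type} {G : SimpleGraph V} {Lg : SimpleGraph L} {P : L → ℝ × ℝ}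
    (hP : IsDrawing Lg P) (τ : E → L → V) (A : E → (ℝ × ℝ) →ᵃ[ℝ] (ℝ × ℝ))
    (hA : ∀ e, Function.Injective (A e)) (q : V → ℝ × ℝ) (hq : ∀ e l, q (τ e l) = A e (P l))
    (hsurj : ∀ v, ∃ e l, v = τ e l)
    (hedge : ∀ a b, G.Adj a b → ∃ e l l', Lg.Adj l l' ∧ a = τ e l ∧ b = τ e l')
    (K : E → Set (ℝ × ℝ)) (hK : ∀ e, Convex ℝ (K e)) (hPK : ∀ e l, A e (P l) ∈ K e)
    (hsep : ∀ e e', e ≠ e' → ∀ z, z ∈ K e → z ∈ K e' →
      ∃ l l', z = A e (P l) ∧ τ e l = τ e' l') :
    IsDrawing G q := by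
  obtain ⟨hP1, hP2, hP3⟩ := hP
  have hinj : Function.Injective q := by
    intro v v' h
    obtain ⟨e, l, rfl⟩ := hsurj v
    obtain ⟨e', l', rfl⟩ := hsurj v'
    rw [hq, hq] at h
    by_cases he : e = e'
    · subst he
      rw [hP1 (hA _ h)]
    · have h1 : A e (P l) ∈ K e' := by rw [h]; exact hPK _ _
      obtain ⟨k, k', hk, hkk⟩ := hsep e e' he _ (hPK e l) h1
      have h2 : l = k := hP1 (hA _ hk)
      have h3 : A e' (P l') = A e' (P k') := by
        rw [← h, hk, ← hq, ← hq, hkk]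
      have h4 : l' = k' := hP1 (hA _ h3)
      rw [h2, h4, hkk]
  have hloc : ∀ e v, q v ∈ K e → ∃ k, v = τ e k := by
    intro e v hv
    obtain ⟨e', k, rfl⟩ := hsurj v
    by_cases he : e = e'
    · subst he
      exact ⟨k, rfl⟩
    · have h1 : q (τ e' k) ∈ K e' := by rw [hq]; exact hPK _ _
      obtain ⟨l, l', hl, -⟩ := hsep e e' he _ hv h1
      rw [← hq] at hl
      exact ⟨l, hinj hl⟩
  have hseg : ∀ e l l', segment ℝ (A e (P l)) (A e (P l')) ⊆ K e := fun e l l' =>
    (hK e).segment_subset (hPK e l) (hPK e l')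
  have h2 : ∀ a b v, G.Adj a b → q v ∈ segment ℝ (q a) (q b) → v = a ∨ v = b := by
    intro a b v hab hv
    obtain ⟨e, l, l', hl, rfl, rfl⟩ := hedge a b hab
    rw [hq, hq] at hv
    obtain ⟨k, rfl⟩ := hloc e v (hseg e l l' hv)
    rw [hq, ← image_segment] at hv
    obtain ⟨y, hy, hy'⟩ := hv
    have := hA e hy'
    subst this
    rcases hP2 l l' k hl hy with h | h
    · left; rw [h]
    · right; rw [h]
  refine ⟨hinj, h2, ?_⟩
  intro a b c d hab hcd hne z hz hz'
  obtain ⟨e, l, l', hl, rfl, rfl⟩ := hedge a b hab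
  obtain ⟨e', k, k', hk, rfl, rfl⟩ := hedge c d hcd
  by_cases he : e = e'
  · subst he
    rw [hq, hq, ← image_segment] at hz hz'
    obtain ⟨y, hy, rfl⟩ := hz
    obtain ⟨y', hy', hyy⟩ := hz'
    have := hA e hyy
    subst this
    obtain ⟨v, hv1, hv2, hv3⟩ := hP3 l l' k k' hl hk (by
      intro hh
      apply hne
      have := congrArg (Sym2.map (τ e)) hh
      simpa [Sym2.map_mk] using this) _ hy hy'
    refine ⟨τ e v, ?_, ?_, ?_⟩
    · rcases hv1 with h | h
      · left; rw [h]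
      · right; rw [h]
    · rcases hv2 with h | h
      · left; rw [h]
      · right; rw [h]
    · rw [hq, hv3]
  · have hz1 := hz
    have hz1' := hz'
    rw [hq, hq] at hz1 hz1'
    obtain ⟨j, j', hj, hjj⟩ := hsep e e' he z (hseg _ _ _ hz1) (hseg _ _ _ hz1')
    rw [← hq] at hj
    subst hj
    refine ⟨τ e j, h2 _ _ _ hab hz, h2 _ _ _ hcd hz', rfl⟩

/-! ### Cross products -/

/-- The cross product of `b - a` and `c - a`. -/
def cr (a b c : ℝ × ℝ) : ℝ := (b.1 - a.1) * (c.2 - a.2) - (b.2 - a.2) * (c.1 - a.1)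

/-- The same for integers. -/
def crZ (a b c : ℤ × ℤ) : ℤ := (b.1 - a.1) * (c.2 - a.2) - (b.2 - a.2) * (c.1 - a.1)

lemma cr_swap (a b c : ℝ × ℝ) : cr b a c = -cr a b c := by
  unfold cr; ring

lemma crZ_swap (a b c : ℤ × ℤ) : crZ b a c = -crZ a b c := by
  unfold crZ; ring

lemma cr_seg {a b z : ℝ × ℝ} (h : z ∈ segment ℝ a b) : cr a b z = 0 := by
  obtain ⟨s, t, hs, ht, hst, rfl⟩ := h
  have : s = 1 - t := by linarith
  subst this
  simp only [cr, Prod.fst_add, Prod.snd_add, Prod.smul_fst, Prod.smul_snd, smul_eq_mul]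
  ring

lemma cr_comb {a b c d z : ℝ × ℝ} (h : z ∈ segment ℝ c d) :
    ∃ s t : ℝ, 0 ≤ s ∧ 0 ≤ t ∧ s + t = 1 ∧ z = s • c + t • d ∧
      cr a b z = s * cr a b c + t * cr a b d := by
  obtain ⟨s, t, hs, ht, hst, rfl⟩ := h
  refine ⟨s, t, hs, ht, hst, rfl, ?_⟩
  have : s = 1 - t := by linarith
  subst this
  simp only [cr, Prod.fst_add, Prod.snd_add, Prod.smul_fst, Prod.smul_snd, smul_eq_mul]
  ring

lemma same_side {a b c d z : ℝ × ℝ} (h : 0 < cr a b c * cr a b d) (hz : z ∈ segment ℝ a b)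
    (hz' : z ∈ segment ℝ c d) : False := by
  obtain ⟨s, t, hs, ht, hst, -, h2⟩ := cr_comb (a := a) (b := b) hz'
  rw [cr_seg hz] at h2
  generalize cr a b c = α at *
  generalize cr a b d = β at *
  have h3 : s * (α * α) + t * (α * β) = 0 := by
    have : α * (s * α + t * β) = 0 := by rw [← h2]; ring
    linarith
  have h4 : 0 ≤ s * (α * α) := mul_nonneg hs (mul_self_nonneg _)
  have h5 : 0 ≤ t * (α * β) := mul_nonneg ht h.le
  have h6 : t * (α * β) = 0 := by linarith
  have h7 : s * (α * α) = 0 := by linarith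
  have h8 : t = 0 := by
    rcases mul_eq_zero.1 h6 with h | h'
    · exact h
    · exact absurd h' h.ne'
  have h9 : α ≠ 0 := by
    rintro rfl
    simp at h
  have h10 : s = 0 := by
    rcases mul_eq_zero.1 h7 with h | h
    · exact h
    · exact absurd h (mul_ne_zero h9 h9)
  linarith

lemma share {a b d z : ℝ × ℝ} (h : cr a b d ≠ 0) (hz : z ∈ segment ℝ a b)
    (hz' : z ∈ segment ℝ a d) : z = a := by
  obtain ⟨s, t, hs, ht, hst, h1, h2⟩ := cr_comb (a := a) (b := b) hz'
  rw [cr_seg hz] at h2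
  have h3 : cr a b a = 0 := by unfold cr; ring
  rw [h3, mul_zero, zero_add] at h2
  have h4 : t = 0 := by
    rcases mul_eq_zero.1 h2.symm with h' | h'
    · exact h'
    · exact absurd h' h
  subst h4
  have h5 : s = 1 := by linarith
  subst h5
  rw [h1]
  simp

/-! ### The drawing of the wire -/

/-- Local positions: `0, …, 11` gadget vertices on the side of the variables, `12, …, 23` gadget
vertices on the side of the clauses, `24` the clause, `25` the variable. -/
def locZ : Fin 26 → ℤ × ℤ :=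
  ![(4, -101), (61, 38), (87, 232), (139, 320), (91, 216), (84, 217), (89, -56), (77, 202),
    (85, 215), (70, 110), (45, 220), (86, 218), (59, 123), (141, -158), (51, -40), (106, 256),
    (85, 217), (82, 211), (79, 176), (69, 218), (87, 216), (73, 31), (6, 320), (86, 222), (0, 0),
    (160, 0)]

/-- Local edges. -/
def locE : List (Fin 26 × Fin 26) :=
  [(0, 24), (25, 13), (0, 14), (0, 22), (1, 12), (1, 14), (1, 21), (2, 15), (2, 19), (2, 23),
   (3, 13), (3, 15), (3, 22), (4, 15), (4, 18), (4, 20), (5, 16), (5, 17), (5, 23), (6, 13),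
   (6, 14), (6, 21), (7, 17), (7, 18), (7, 19), (8, 16), (8, 17), (8, 20), (9, 12), (9, 18),
   (9, 21), (10, 12), (10, 19), (10, 22), (11, 16), (11, 20), (11, 23)]

/-- The local graph. -/
def locG : SimpleGraph (Fin 26) where
  Adj a b := (a, b) ∈ locE ∨ (b, a) ∈ locE
  symm := ⟨fun _ _ h => h.symm⟩
  loopless := ⟨by
    have h : ∀ e ∈ locE, e.1 ≠ e.2 := by decide +kernel
    rintro a (h' | h')
    · exact h _ h' rfl
    · exact h _ h' rfl⟩

/-- Local positions as real points. -/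
def loc (a : Fin 26) : ℝ × ℝ := (((locZ a).1 : ℝ), ((locZ a).2 : ℝ))

lemma loc_inj : Function.Injective loc := by
  have h : ∀ a b, locZ a = locZ b → a = b := by decide +kernel
  intro a b hab
  apply h
  simp only [loc, Prod.mk.injEq, Int.cast_inj] at hab
  exact Prod.ext hab.1 hab.2

lemma cr_loc (a b c : Fin 26) : cr (loc a) (loc b) (loc c) = (crZ (locZ a) (locZ b) (locZ c) : ℝ) := by
  simp only [cr, crZ, loc]
  push_cast
  ring

lemma chk1 : ∀ e ∈ locE, ∀ v : Fin 26, v = e.1 ∨ v = e.2 ∨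
    crZ (locZ e.1) (locZ e.2) (locZ v) ≠ 0 := by decide +kernel

lemma chk2 : ∀ e ∈ locE, ∀ f ∈ locE, e.1 = f.1 ∨ e.1 = f.2 ∨ e.2 = f.1 ∨ e.2 = f.2 ∨
    0 < crZ (locZ e.1) (locZ e.2) (locZ f.1) * crZ (locZ e.1) (locZ e.2) (locZ f.2) ∨
    0 < crZ (locZ f.1) (locZ f.2) (locZ e.1) * crZ (locZ f.1) (locZ f.2) (locZ e.2) := by
  decide +kernel

lemma loc1 {a b v : Fin 26} (h : locG.Adj a b) (h1 : v ≠ a) (h2 : v ≠ b) :
    cr (loc a) (loc b) (loc v) ≠ 0 := by
  rw [cr_loc]
  rcases h with h | h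
  · rcases chk1 _ h v with h' | h' | h'
    · exact absurd h' h1
    · exact absurd h' h2
    · exact_mod_cast h'
  · rcases chk1 _ h v with h' | h' | h'
    · exact absurd h' h2
    · exact absurd h' h1
    · rw [crZ_swap]
      intro h0
      apply h'
      have : (-crZ (locZ b) (locZ a) (locZ v) : ℤ) = 0 := by exact_mod_cast h0
      simpa using this

lemma loc2 {a b c d : Fin 26} (h : locG.Adj a b) (h' : locG.Adj c d) (h1 : a ≠ c) (h2 : a ≠ d)
    (h3 : b ≠ c) (h4 : b ≠ d) :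
    0 < cr (loc a) (loc b) (loc c) * cr (loc a) (loc b) (loc d) ∨
    0 < cr (loc c) (loc d) (loc a) * cr (loc c) (loc d) (loc b) := by
  have key : ∀ a b c d : Fin 26, (a, b) ∈ locE → (c, d) ∈ locE → a ≠ c → a ≠ d → b ≠ c → b ≠ d →
      0 < cr (loc a) (loc b) (loc c) * cr (loc a) (loc b) (loc d) ∨
      0 < cr (loc c) (loc d) (loc a) * cr (loc c) (loc d) (loc b) := by
    intro a b c d h h' h1 h2 h3 h4
    simp only [cr_loc]
    rcases chk2 _ h _ h' with h5 | h5 | h5 | h5 | h5 | h5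
    · exact absurd h5 h1
    · exact absurd h5 h2
    · exact absurd h5 h3
    · exact absurd h5 h4
    · left; exact_mod_cast h5
    · right; exact_mod_cast h5
  rcases h with h | h <;> rcases h' with h' | h'
  · exact key _ _ _ _ h h' h1 h2 h3 h4
  · rcases key _ _ _ _ h h' h2 h1 h4 h3 with h5 | h5
    · left; linarith
    · right
      rw [cr_swap (loc d) (loc c), cr_swap (loc d) (loc c)]
      linarith
  · rcases key _ _ _ _ h h' h3 h4 h1 h2 with h5 | h5
    · left
      rw [cr_swap (loc b) (loc a), cr_swap (loc b) (loc a)]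
      linarith
    · right; linarith
  · rcases key _ _ _ _ h h' h4 h3 h2 h1 with h5 | h5
    · left
      rw [cr_swap (loc b) (loc a), cr_swap (loc b) (loc a)]
      linarith
    · right
      rw [cr_swap (loc d) (loc c), cr_swap (loc d) (loc c)]
      linarith

/-- The wire with its two ends is drawn. -/
theorem loc_drawing : IsDrawing locG loc := by
  refine ⟨loc_inj, ?_, ?_⟩
  · intro a b v hab hv
    by_contra hcon
    push Not at hcon
    exact loc1 hab hcon.1 hcon.2 (cr_seg hv)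
  · intro a b c d hab hcd hne z hz hz'
    by_cases h1 : a = c
    · subst h1
      have hbd : d ≠ b := by rintro rfl; exact hne rfl
      exact ⟨a, Or.inl rfl, Or.inl rfl,
        share (loc1 hab (Ne.symm hcd.ne) hbd) hz hz'⟩
    by_cases h2 : a = d
    · subst h2
      have hbd : c ≠ b := by rintro rfl; exact hne (Sym2.eq_swap)
      rw [segment_symm] at hz'
      exact ⟨a, Or.inl rfl, Or.inr rfl, share (loc1 hab hcd.ne hbd) hz hz'⟩
    by_cases h3 : b = c
    · subst h3
      rw [segment_symm] at hz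
      exact ⟨b, Or.inr rfl, Or.inl rfl,
        share (loc1 hab.symm (Ne.symm hcd.ne) (Ne.symm h2)) hz hz'⟩
    by_cases h4 : b = d
    · subst h4
      rw [segment_symm] at hz hz'
      exact ⟨b, Or.inr rfl, Or.inr rfl,
        share (loc1 hab.symm hcd.ne (Ne.symm h1)) hz hz'⟩
    exfalso
    rcases loc2 hab hcd h1 h2 h3 h4 with h | h
    · exact same_side h hz hz'
    · exact same_side h hz' hz

/-! ### Kites -/

/-- Rotation by a right angle. -/
def rot (d : ℝ × ℝ) : ℝ × ℝ := (-d.2, d.1)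

/-- The kite around the segment from `o` to `a`. -/
def Kite (δ : ℝ) (o a : ℝ × ℝ) : Set (ℝ × ℝ) :=
  {z | ∃ s t : ℝ, |t| ≤ s ∧ |t| ≤ 1 - s ∧ z = o + s • (a - o) + (δ * t) • rot (a - o)}

lemma kite_sub (δ : ℝ) (o a : ℝ × ℝ) : Kite δ o a ⊆ Kite δ a o := by
  rintro z ⟨s, t, h1, h2, rfl⟩
  refine ⟨1 - s, -t, by rwa [abs_neg], by rw [abs_neg]; linarith, ?_⟩
  ext
  · simp only [rot, Prod.fst_add, Prod.smul_fst, Prod.fst_sub, Prod.snd_sub, smul_eq_mul]; ring
  · simp only [rot, Prod.snd_add, Prod.smul_snd, Prod.fst_sub, Prod.snd_sub, smul_eq_mul]; ring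

lemma kite_symm (δ : ℝ) (o a : ℝ × ℝ) : Kite δ o a = Kite δ a o :=
  Subset.antisymm (kite_sub _ _ _) (kite_sub _ _ _)

lemma kite_convex (δ : ℝ) (o a : ℝ × ℝ) : Convex ℝ (Kite δ o a) := by
  rintro z ⟨s, t, h1, h2, rfl⟩ z' ⟨s', t', h1', h2', rfl⟩ x y hx hy hxy
  refine ⟨x * s + y * s', x * t + y * t', ?_, ?_, ?_⟩
  · calc |x * t + y * t'| ≤ |x * t| + |y * t'| := abs_add_le _ _
      _ = x * |t| + y * |t'| := by rw [abs_mul, abs_mul, abs_of_nonneg hx, abs_of_nonneg hy]
      _ ≤ x * s + y * s' := add_le_add (mul_le_mul_of_nonneg_left h1 hx)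
          (mul_le_mul_of_nonneg_left h1' hy)
  · calc |x * t + y * t'| ≤ |x * t| + |y * t'| := abs_add_le _ _
      _ = x * |t| + y * |t'| := by rw [abs_mul, abs_mul, abs_of_nonneg hx, abs_of_nonneg hy]
      _ ≤ x * (1 - s) + y * (1 - s') := add_le_add (mul_le_mul_of_nonneg_left h2 hx)
          (mul_le_mul_of_nonneg_left h2' hy)
      _ = 1 - (x * s + y * s') := by linarith
  · have hx' : x = 1 - y := by linarith
    subst hx'
    ext
    · simp only [rot, Prod.fst_add, Prod.smul_fst, Prod.fst_sub, Prod.snd_sub, smul_eq_mul]; ring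
    · simp only [rot, Prod.snd_add, Prod.smul_snd, Prod.fst_sub, Prod.snd_sub, smul_eq_mul]; ring

lemma cone_sep {o a a' : ℝ × ℝ} (h1 : a' ∉ segment ℝ o a) (h2 : a ∉ segment ℝ o a') :
    ∀ᶠ δ in 𝓝[>] (0 : ℝ), ∀ z, z ∈ Kite δ o a → z ∈ Kite δ o a' → z = o := by
  set c : ℝ := (a - o).1 * (a' - o).2 - (a - o).2 * (a' - o).1 with hc
  set t₀ : ℝ := (a - o).1 * (a' - o).1 + (a - o).2 * (a' - o).2 with ht₀
  -- the two directions are not positive multiples of each other
  have key : c ≠ 0 ∨ t₀ < 0 := by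
    by_contra hcon
    push Not at hcon
    obtain ⟨hc0, ht⟩ := hcon
    have hN : 0 < (a - o).1 ^ 2 + (a - o).2 ^ 2 := by
      by_contra hh
      have e1 : (a - o).1 = 0 := by nlinarith [sq_nonneg (a - o).1, sq_nonneg (a - o).2]
      have e2 : (a - o).2 = 0 := by nlinarith [sq_nonneg (a - o).1, sq_nonneg (a - o).2]
      have e3 : a = o := by
        have : a - o = 0 := Prod.ext e1 e2
        exact sub_eq_zero.1 this
      apply h2
      rw [e3]
      exact left_mem_segment _ _ _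
    set N : ℝ := (a - o).1 ^ 2 + (a - o).2 ^ 2 with hNdef
    -- a' - o = (t₀ / N) • (a - o)
    have hp : a' - o = (t₀ / N) • (a - o) := by
      have e1 : N * (a' - o).1 = t₀ * (a - o).1 := by
        rw [hNdef, ht₀]
        have : (a - o).2 * ((a - o).1 * (a' - o).2 - (a - o).2 * (a' - o).1) = 0 := by
          rw [← hc, hc0, mul_zero]
        linear_combination -this
      have e2 : N * (a' - o).2 = t₀ * (a - o).2 := by
        rw [hNdef, ht₀]
        have : (a - o).1 * ((a - o).1 * (a' - o).2 - (a - o).2 * (a' - o).1) = 0 := by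
          rw [← hc, hc0, mul_zero]
        linear_combination this
      ext
      · rw [Prod.smul_fst, smul_eq_mul, div_mul_eq_mul_div, eq_div_iff hN.ne', ← e1]; ring
      · rw [Prod.smul_snd, smul_eq_mul, div_mul_eq_mul_div, eq_div_iff hN.ne', ← e2]; ring
    set l : ℝ := t₀ / N with hl
    have hl0 : 0 ≤ l := div_nonneg ht hN.le
    rcases le_or_gt l 1 with hl1 | hl1
    · apply h1
      rw [segment_eq_image']
      refine ⟨l, ⟨hl0, hl1⟩, ?_⟩
      simp only
      rw [← hp]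
      abel
    · apply h2
      rw [segment_eq_image']
      have hlp : 0 < l := by linarith
      refine ⟨l⁻¹, ⟨(inv_pos.2 hlp).le, inv_le_one_of_one_le₀ hl1.le⟩, ?_⟩
      simp only
      rw [hp, smul_smul, inv_mul_cancel₀ hlp.ne', one_smul]
      abel
  -- the main computation
  have main : ∀ δ : ℝ, 0 < δ → (c ≠ 0 → 2 * δ * |t₀| + δ ^ 2 * |c| < |c|) →
      ∀ z, z ∈ Kite δ o a → z ∈ Kite δ o a' → z = o := by
    rintro δ hδ hsmall z ⟨s, t, hs1, hs2, hz⟩ ⟨s', t', hs1', hs2', hz'⟩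
    have hs0 : 0 ≤ s := le_trans (abs_nonneg _) hs1
    have hs0' : 0 ≤ s' := le_trans (abs_nonneg _) hs1'
    have E1 : s * (a - o).1 - δ * t * (a - o).2 = s' * (a' - o).1 - δ * t' * (a' - o).2 := by
      have := congrArg Prod.fst (hz.symm.trans hz')
      simp only [rot, Prod.fst_add, Prod.smul_fst, smul_eq_mul] at this
      linarith
    have E2 : s * (a - o).2 + δ * t * (a - o).1 = s' * (a' - o).2 + δ * t' * (a' - o).1 := by
      have := congrArg Prod.snd (hz.symm.trans hz')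
      simp only [rot, Prod.snd_add, Prod.smul_snd, smul_eq_mul] at this
      linarith
    set N' : ℝ := (a' - o).1 ^ 2 + (a' - o).2 ^ 2 with hN'
    have hN'0 : 0 ≤ N' := by positivity
    have R : s * t₀ + δ * t * c = s' * N' := by
      rw [hN', ht₀, hc]
      linear_combination (a' - o).1 * E1 + (a' - o).2 * E2
    have I : -(s * c) + δ * t * t₀ = δ * t' * N' := by
      rw [hN', ht₀, hc]
      linear_combination -(a' - o).2 * E1 + (a' - o).1 * E2
    have hs : s = 0 := by
      by_contra hne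
      have hpos : 0 < s := lt_of_le_of_ne hs0 (Ne.symm hne)
      by_cases hc0 : c = 0
      · have ht : t₀ < 0 := by
          rcases key with h | h
          · exact absurd hc0 h
          · exact h
        rw [hc0, mul_zero, add_zero] at R
        have : s * t₀ < 0 := mul_neg_of_pos_of_neg hpos ht
        have : 0 ≤ s' * N' := mul_nonneg hs0' hN'0
        linarith
      · have hsm := hsmall hc0
        have b1 : |δ * t' * N'| ≤ δ * (s' * N') := by
          rw [abs_mul, abs_mul, abs_of_pos hδ, abs_of_nonneg hN'0, mul_assoc]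
          exact mul_le_mul_of_nonneg_left (mul_le_mul_of_nonneg_right hs1' hN'0) hδ.le
        have b2 : |δ * t * t₀| ≤ δ * (s * |t₀|) := by
          rw [abs_mul, abs_mul, abs_of_pos hδ, mul_assoc]
          exact mul_le_mul_of_nonneg_left (mul_le_mul_of_nonneg_right hs1 (abs_nonneg _)) hδ.le
        have b3 : s' * N' ≤ s * |t₀| + δ * (s * |c|) := by
          rw [← R]
          apply add_le_add
          · exact mul_le_mul_of_nonneg_left (le_abs_self _) hs0
          · calc δ * t * c ≤ |δ * t * c| := le_abs_self _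
              _ = δ * (|t| * |c|) := by rw [abs_mul, abs_mul, abs_of_pos hδ, mul_assoc]
              _ ≤ δ * (s * |c|) :=
                mul_le_mul_of_nonneg_left (mul_le_mul_of_nonneg_right hs1 (abs_nonneg _)) hδ.le
        have b4 : s * |c| = |δ * t * t₀ - δ * t' * N'| := by
          have : δ * t * t₀ - δ * t' * N' = s * c := by linarith
          rw [this, abs_mul, abs_of_pos hpos]
        have b5 : |δ * t * t₀ - δ * t' * N'| ≤ |δ * t * t₀| + |δ * t' * N'| := abs_sub _ _
        have b6 : s * |c| ≤ s * (2 * δ * |t₀| + δ ^ 2 * |c|) := by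
          calc s * |c| ≤ |δ * t * t₀| + |δ * t' * N'| := by rw [b4]; exact b5
            _ ≤ δ * (s * |t₀|) + δ * (s' * N') := add_le_add b2 b1
            _ ≤ δ * (s * |t₀|) + δ * (s * |t₀| + δ * (s * |c|)) := by
              have := mul_le_mul_of_nonneg_left b3 hδ.le
              linarith
            _ = s * (2 * δ * |t₀| + δ ^ 2 * |c|) := by ring
        have b7 : s * (2 * δ * |t₀| + δ ^ 2 * |c|) < s * |c| := mul_lt_mul_of_pos_left hsm hpos
        linarith
    have ht : t = 0 := by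
      rw [hs] at hs1
      exact abs_eq_zero.1 (le_antisymm hs1 (abs_nonneg _))
    rw [hz, hs, ht]
    simp
  have hlim : c ≠ 0 → ∀ᶠ δ in 𝓝[>] (0 : ℝ), 2 * δ * |t₀| + δ ^ 2 * |c| < |c| := by
    intro hc0
    have h3 : Tendsto (fun δ : ℝ => 2 * δ * |t₀| + δ ^ 2 * |c|) (𝓝 0)
        (𝓝 (2 * 0 * |t₀| + 0 ^ 2 * |c|)) := by
      apply Continuous.tendsto
      fun_prop
    have h4 : (2 * 0 * |t₀| + 0 ^ 2 * |c|) < |c| := by
      simpa using hc0
    exact (nhdsWithin_le_nhds : 𝓝[>] (0 : ℝ) ≤ 𝓝 0) (h3.eventually (gt_mem_nhds h4))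
  have hev : ∀ᶠ δ in 𝓝[>] (0 : ℝ), (c ≠ 0 → 2 * δ * |t₀| + δ ^ 2 * |c| < |c|) := by
    by_cases hc0 : c = 0
    · exact Eventually.of_forall fun δ h => absurd hc0 h
    · exact (hlim hc0).mono fun δ h _ => h
  filter_upwards [hev, self_mem_nhdsWithin] with δ h hδ
  exact main δ hδ h

lemma kite_near {δ ρ : ℝ} {o a z : ℝ × ℝ} (hδ : 0 < δ) (h : δ * ‖rot (a - o)‖ < ρ)
    (hz : z ∈ Kite δ o a) : z ∈ Metric.thickening ρ (segment ℝ o a) := by
  obtain ⟨s, t, h1, h2, rfl⟩ := hz
  have hs0 : 0 ≤ s := le_trans (abs_nonneg _) h1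
  have hs1 : s ≤ 1 := by have := abs_nonneg t; linarith
  rw [Metric.mem_thickening_iff]
  refine ⟨o + s • (a - o), ?_, ?_⟩
  · rw [segment_eq_image']
    exact ⟨s, ⟨hs0, hs1⟩, rfl⟩
  · rw [dist_eq_norm, add_sub_cancel_left, norm_smul]
    have ht : |t| ≤ 1 := by linarith
    calc ‖δ * t‖ * ‖rot (a - o)‖ = δ * |t| * ‖rot (a - o)‖ := by
          rw [norm_mul, Real.norm_of_nonneg hδ.le, Real.norm_eq_abs]
      _ ≤ δ * 1 * ‖rot (a - o)‖ := by gcongr
      _ < ρ := by rw [mul_one]; exact h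

lemma disj_sep {o a o' a' : ℝ × ℝ} (h : Disjoint (segment ℝ o a) (segment ℝ o' a')) :
    ∀ᶠ δ in 𝓝[>] (0 : ℝ), ∀ z, z ∈ Kite δ o a → z ∉ Kite δ o' a' := by
  have hcomp : ∀ x y : ℝ × ℝ, IsCompact (segment ℝ x y) := by
    intro x y
    rw [segment_eq_image']
    exact isCompact_Icc.image (by fun_prop)
  obtain ⟨ρ, hρ, hd⟩ := h.exists_thickenings (hcomp o a) (hcomp o' a').isClosed
  have hlim : ∀ x : ℝ × ℝ, ∀ᶠ δ in 𝓝[>] (0 : ℝ), δ * ‖rot x‖ < ρ := by
    intro x
    have h3 : Tendsto (fun δ : ℝ => δ * ‖rot x‖) (𝓝 0) (𝓝 (0 * ‖rot x‖)) := by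
      apply Continuous.tendsto
      fun_prop
    have h4 : 0 * ‖rot x‖ < ρ := by simpa using hρ
    exact (nhdsWithin_le_nhds : 𝓝[>] (0 : ℝ) ≤ 𝓝 0) (h3.eventually (gt_mem_nhds h4))
  filter_upwards [hlim (a - o), hlim (a' - o'), self_mem_nhdsWithin] with δ h1 h2 hδ z hz hz'
  exact Set.disjoint_left.1 hd (kite_near hδ h1 hz) (kite_near hδ h2 hz')

end Pool.Agent.Lib.MP_7e9d2b_lc
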