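import Pool.Agent.Lib.MP_7e9d2b_lc.Defs

/-!
An explicit multi-stack Turing machine computing the reduction in polynomial time.
The set-up follows the machine of helper95 (MP_a6fa5c_lc).
-/

namespace Pool.Agent.Lib.MP_7e9d2b_lc

open Turing Turing.TM2

/-! ### The script of one wire -/

/-- The pairs of offsets of the edges of a wire, without the edge of the variable. -/
def prs (r : ℕ) : List (ℕ × ℕ) :=
  (1 + 12 * r, 37) :: wire.map fun e => (1 + 12 * r + e.1, 38 + 12 * r + e.2)

/-- The offsets in the order in which they are written. -/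
def cs (r : ℕ) : List ℕ := ((prs r).reverse.flatMap fun e => [e.2, e.1]) ++ [38 + 12 * r + 1]

/-- The offset number `i`. -/
def cst (r i : ℕ) : ℕ := (cs r).getD i 0

lemma prs_length (r : ℕ) : (prs r).length = 36 := by
  simp [prs, wire]

lemma cs_length (r : ℕ) : (cs r).length = 73 := by
  have h : ∀ P : List (ℕ × ℕ), (P.flatMap fun e => [e.2, e.1]).length = 2 * P.length := by
    intro P
    induction P with
    | nil => rfl
    | cons e P ih => rw [List.flatMap_cons, List.length_append, ih]; simp; ring
  rw [cs, List.length_append, h, List.length_reverse, prs_length]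
  rfl

/-- The output after writing the numbers `74 * j + c` for `c` in a list. -/
def outs (j : ℕ) (l : List ℕ) (o : List Bool) : List Bool :=
  l.foldl (fun o c => un (74 * j + c) ++ o) o

lemma outs_append (j : ℕ) (l l' : List ℕ) (o : List Bool) :
    outs j (l ++ l') o = outs j l' (outs j l o) := by
  simp [outs]

lemma outs_pairs (j : ℕ) (o : List Bool) : ∀ P : List (ℕ × ℕ),
    outs j (P.reverse.flatMap fun e => [e.2, e.1]) o
      = (P.flatMap fun e => un (74 * j + e.1) ++ un (74 * j + e.2)) ++ o := by
  intro P
  induction P with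
  | nil => rfl
  | cons e P ih =>
    rw [List.reverse_cons, List.flatMap_append, outs_append, ih]
    simp [outs]

/-- Encoding of an edge. -/
def encE (e : ℕ × ℕ) : List Bool := un e.1 ++ un e.2

lemma wire_out (j r u : ℕ) (o : List Bool) :
    un (74 * u) ++ outs j (cs r) o = (wireEdges j r u).flatMap encE ++ o := by
  rw [cs, outs_append, outs_pairs]
  simp [wireEdges, prs, encE, outs, List.flatMap_map, Function.comp_def]

/-! ### The machine -/

/-- Stacks. -/
inductive Stk | inp | out | ctr | tmp
  deriving DecidableEq, Fintype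

/-- Labels. -/
inductive Lbl
  | start
  | beg (r : Fin 3) (i : Fin 74)
  | lit (r : Fin 3) (i : Fin 74)
  | back (r : Fin 3) (i : Fin 74)
  | rd (r : Fin 3)
  | kk (t : Fin 3)
  | nn
  deriving DecidableEq, Fintype

/-- Statements of the machine. -/
abbrev St := Stmt (fun _ : Stk => Bool) Lbl (Option Bool)

/-- Push `n` marks on the output stack. -/
def pushT (n : ℕ) (q : St) : St := (fun q => Stmt.push Stk.out (fun _ => true) q)^[n] q

/-- Push a delimiter on the output stack. -/
def pushF (q : St) : St := Stmt.push Stk.out (fun _ => false) q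

/-- The program. -/
def prog : Lbl → St
  | .start => Stmt.peek Stk.inp (fun _ o => o) <|
      Stmt.branch (fun v => v.isSome) (Stmt.goto fun _ => .beg 0 0)
        (pushF <| Stmt.goto fun _ => .kk 0)
  | .beg r i => pushF <| Stmt.goto fun _ => if i.val = 73 then .rd r else .lit r i
  | .lit r i => Stmt.pop Stk.ctr (fun _ o => o) <|
      Stmt.branch (fun v => v.isSome)
        (Stmt.push Stk.tmp (fun _ => true) <| pushT 74 <| Stmt.goto fun _ => .lit r i)
        (pushT (cst r.val i.val) <| Stmt.goto fun _ => .back r i)
  | .back r i => Stmt.pop Stk.tmp (fun _ o => o) <|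
      Stmt.branch (fun v => v.isSome)
        (Stmt.push Stk.ctr (fun _ => true) <| Stmt.goto fun _ => .back r i)
        (Stmt.goto fun _ => .beg r (i + 1))
  | .rd r => Stmt.pop Stk.inp (fun _ o => o) <|
      Stmt.branch (fun v => v = some true)
        (pushT 74 <| Stmt.goto fun _ => .rd r)
        (if r = 2 then Stmt.push Stk.ctr (fun _ => true) <| Stmt.goto fun _ => .start
          else Stmt.goto fun _ => .beg (r + 1) 0)
  | .kk t => Stmt.pop Stk.ctr (fun _ o => o) <|
      Stmt.branch (fun v => v.isSome)
        (Stmt.push Stk.tmp (fun _ => true) <| pushT (if t = 0 then 23 else 22) <|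
          Stmt.goto fun _ => .kk (t + 1))
        (pushF <| Stmt.goto fun _ => .nn)
  | .nn => Stmt.pop Stk.tmp (fun _ o => o) <|
      Stmt.branch (fun v => v.isSome) (pushT 74 <| Stmt.goto fun _ => .nn) Stmt.halt

/-- The bundled machine. -/
def tm : FinTM2 where
  K := Stk
  k₀ := .inp
  k₁ := .out
  Γ _ := Bool
  Λ := Lbl
  main := .start
  σ := Option Bool
  initialState := none
  Γk₀Fin := inferInstance
  m := prog

/-- The contents of the four stacks. -/
def stk (i o c t : List Bool) : Stk → List Bool
  | .inp => i
  | .out => o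
  | .ctr => c
  | .tmp => t

@[simp] lemma upd_inp (i o c t l : List Bool) :
    Function.update (stk i o c t) Stk.inp l = stk l o c t := by
  funext k; cases k <;> rfl
@[simp] lemma upd_out (i o c t l : List Bool) :
    Function.update (stk i o c t) Stk.out l = stk i l c t := by
  funext k; cases k <;> rfl
@[simp] lemma upd_ctr (i o c t l : List Bool) :
    Function.update (stk i o c t) Stk.ctr l = stk i o l t := by
  funext k; cases k <;> rfl
@[simp] lemma upd_tmp (i o c t l : List Bool) :
    Function.update (stk i o c t) Stk.tmp l = stk i o c l := by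
  funext k; cases k <;> rfl

@[simp] lemma stk_inp (i o c t : List Bool) : stk i o c t Stk.inp = i := rfl
@[simp] lemma stk_out (i o c t : List Bool) : stk i o c t Stk.out = o := rfl
@[simp] lemma stk_ctr (i o c t : List Bool) : stk i o c t Stk.ctr = c := rfl
@[simp] lemma stk_tmp (i o c t : List Bool) : stk i o c t Stk.tmp = t := rfl

@[simp] lemma stepAux_pushF (q : St) (v : Option Bool) (i o c t : List Bool) :
    stepAux (pushF q) v (stk i o c t) = stepAux q v (stk i (false :: o) c t) := by
  simp [pushF]

@[simp] lemma stepAux_pushT (n : ℕ) (q : St) (v : Option Bool) (i o c t : List Bool) :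
    stepAux (pushT n q) v (stk i o c t)
      = stepAux q v (stk i (List.replicate n true ++ o) c t) := by
  induction n generalizing q o with
  | zero => simp [pushT]
  | succ n ih =>
    have : pushT (n + 1) q = pushT n (Stmt.push Stk.out (fun _ => true) q) := by
      simp [pushT, Function.iterate_succ_apply]
    rw [this, ih]
    simp [List.replicate_succ]

/-- Configurations of the machine. -/
abbrev cfg (l : Option Lbl) (v : Option Bool) (S : Stk → List Bool) : tm.Cfg := ⟨l, v, S⟩

/-- `Run n a b`: the machine goes from `a` to `b` in exactly `n` steps. -/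
def Run (n : ℕ) (a b : tm.Cfg) : Prop := (flip bind tm.step)^[n] (some a) = some b

lemma Run.refl (a : tm.Cfg) : Run 0 a a := rfl

lemma Run.trans {m n : ℕ} {a b c : tm.Cfg} (h1 : Run m a b) (h2 : Run n b c) :
    Run (m + n) a c := by
  unfold Run at *
  rw [add_comm, Function.iterate_add_apply, h1, h2]

lemma Run.one {l : Lbl} {v : Option Bool} {S : Stk → List Bool} {b : tm.Cfg}
    (h : stepAux (prog l) v S = b) : Run 1 (cfg (some l) v S) b := by
  subst h
  rfl

/-- Marks. -/
abbrev tt (n : ℕ) : List Bool := List.replicate n true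

lemma run_lit1 (r : Fin 3) (i : Fin 74) (inp : List Bool) (v : Option Bool) :
    ∀ (j k : ℕ) (o : List Bool),
    Run (j + 1) (cfg (some (.lit r i)) v (stk inp o (tt j) (tt k)))
      (cfg (some (.back r i)) none (stk inp (tt (74 * j + cst r i) ++ o) [] (tt (j + k)))) := by
  intro j
  induction j generalizing v with
  | zero =>
    intro k o
    apply Run.one
    simp [prog, cfg]
    rfl
  | succ j ih =>
    intro k o
    have h1 : Run 1 (cfg (some (.lit r i)) v (stk inp o (tt (j + 1)) (tt k)))
        (cfg (some (.lit r i)) (some true) (stk inp (tt 74 ++ o) (tt j) (tt (k + 1)))) := by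
      apply Run.one
      simp [prog, cfg, List.replicate_succ]
      rfl
    have h2 := ih (some true) (k + 1) (tt 74 ++ o)
    have h3 := h1.trans h2
    have e1 : 1 + (j + 1) = j + 1 + 1 := by ring
    have e2 : tt (74 * j + cst r i) ++ (tt 74 ++ o) = tt (74 * (j + 1) + cst r i) ++ o := by
      rw [← List.append_assoc, ← List.replicate_add]
      congr 2; ring
    have e3 : j + (k + 1) = j + 1 + k := by ring
    rw [e1, e2, e3] at h3
    exact h3

lemma run_back (r : Fin 3) (i : Fin 74) (inp o : List Bool) (v : Option Bool) :
    ∀ (j k : ℕ),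
    Run (j + 1) (cfg (some (.back r i)) v (stk inp o (tt k) (tt j)))
      (cfg (some (.beg r (i + 1))) none (stk inp o (tt (j + k)) [])) := by
  intro j
  induction j generalizing v with
  | zero =>
    intro k
    apply Run.one
    simp [prog, cfg]
    rfl
  | succ j ih =>
    intro k
    have h1 : Run 1 (cfg (some (.back r i)) v (stk inp o (tt k) (tt (j + 1))))
        (cfg (some (.back r i)) (some true) (stk inp o (tt (k + 1)) (tt j))) := by
      apply Run.one
      simp [prog, cfg, List.replicate_succ]
      rfl
    have h2 := ih (some true) (k + 1)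
    have h3 := h1.trans h2
    have e1 : 1 + (j + 1) = j + 1 + 1 := by ring
    have e3 : j + (k + 1) = j + 1 + k := by ring
    rw [e1, e3] at h3
    exact h3

/-- Writing one number. -/
lemma run_num (r : Fin 3) (i : Fin 74) (hi : i.val < 73) (inp o : List Bool) (v : Option Bool)
    (j : ℕ) :
    Run (2 * j + 3) (cfg (some (.beg r i)) v (stk inp o (tt j) []))
      (cfg (some (.beg r (i + 1))) none
        (stk inp (un (74 * j + cst r i) ++ o) (tt j) [])) := by
  have h0 : Run 1 (cfg (some (.beg r i)) v (stk inp o (tt j) []))
      (cfg (some (.lit r i)) v (stk inp (false :: o) (tt j) [])) := by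
    apply Run.one
    have hne : ¬ i.val = 73 := by omega
    simp [prog, cfg, hne]
    rfl
  have h1 := run_lit1 r i inp v j 0 (false :: o)
  have h2 := run_back r i inp (tt (74 * j + cst r i) ++ (false :: o)) none (j + 0) 0
  have h := (h0.trans h1).trans h2
  have e1 : 1 + (j + 1) + (j + 0 + 1) = 2 * j + 3 := by ring
  have e2 : tt (74 * j + cst r i) ++ (false :: o) = un (74 * j + cst r i) ++ o := by
    simp [un]
  have e3 : j + 0 + 0 = j := rfl
  rw [e1, e2, e3] at h
  exact h

/-- Writing the first `i` numbers of a wire. -/
lemma run_nums (r : Fin 3) (inp o : List Bool) (v : Option Bool) (j : ℕ) :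
    ∀ (i : ℕ) (hi : i < 74), ∃ w, Run (i * (2 * j + 3))
      (cfg (some (.beg r 0)) v (stk inp o (tt j) []))
      (cfg (some (.beg r ⟨i, hi⟩)) w
        (stk inp (outs j ((cs r.val).take i) o) (tt j) [])) := by
  intro i
  induction i with
  | zero =>
    intro hi
    exact ⟨v, by simpa [outs] using Run.refl _⟩
  | succ i ih =>
    intro hi
    obtain ⟨w, h1⟩ := ih (by omega)
    have h2 := run_num r ⟨i, by omega⟩ (by simp only; omega) inp
      (outs j ((cs r.val).take i) o) w j
    refine ⟨none, ?_⟩
    have h := h1.trans h2
    have e1 : i * (2 * j + 3) + (2 * j + 3) = (i + 1) * (2 * j + 3) := by ring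
    have e2 : (⟨i, by omega⟩ : Fin 74) + 1 = ⟨i + 1, hi⟩ := by
      apply Fin.ext
      simp only [Fin.add_def, Fin.val_one]
      omega
    have hlen := cs_length r.val
    have e3 : un (74 * j + cst r.val i) ++ outs j ((cs r.val).take i) o
        = outs j ((cs r.val).take (i + 1)) o := by
      have hi' : i < (cs r.val).length := by omega
      rw [List.take_succ_eq_append_getElem hi', outs_append]
      simp [outs, cst, hi']
    rw [e1, e2] at h
    simp only [e3] at h
    exact h

/-- Reading one number. -/
lemma run_rd_loop (r : Fin 3) (inp c t : List Bool) (v : Option Bool) :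
    ∀ (u : ℕ) (o : List Bool),
    ∃ w, Run u (cfg (some (.rd r)) v (stk (un u ++ inp) o c t))
      (cfg (some (.rd r)) w (stk (un 0 ++ inp) (tt (74 * u) ++ o) c t)) := by
  intro u
  induction u generalizing v with
  | zero => intro o; exact ⟨v, by simpa [un] using Run.refl _⟩
  | succ u ih =>
    intro o
    have h1 : Run 1 (cfg (some (.rd r)) v (stk (un (u + 1) ++ inp) o c t))
        (cfg (some (.rd r)) (some true) (stk (un u ++ inp) (tt 74 ++ o) c t)) := by
      apply Run.one
      simp [prog, cfg, un, List.replicate_succ]
      rfl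
    obtain ⟨w, h2⟩ := ih (some true) (tt 74 ++ o)
    refine ⟨w, ?_⟩
    have h3 := h1.trans h2
    have e1 : 1 + u = u + 1 := by ring
    have e2 : tt (74 * u) ++ (tt 74 ++ o) = tt (74 * (u + 1)) ++ o := by
      rw [← List.append_assoc, ← List.replicate_add]
      congr 2
    rw [e1, e2] at h3
    exact h3

lemma run_rd_end (r : Fin 3) (hr : r ≠ 2) (inp o c t : List Bool) (v : Option Bool) :
    Run 1 (cfg (some (.rd r)) v (stk (un 0 ++ inp) o c t))
      (cfg (some (.beg (r + 1) 0)) (some false) (stk inp o c t)) := by
  apply Run.one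
  simp [prog, cfg, un, hr]
  rfl

lemma run_rd_end2 (inp o t : List Bool) (j : ℕ) (v : Option Bool) :
    Run 1 (cfg (some (.rd 2)) v (stk (un 0 ++ inp) o (tt j) t))
      (cfg (some .start) (some false) (stk inp o (tt (j + 1)) t)) := by
  apply Run.one
  simp [prog, cfg, un, List.replicate_succ]
  rfl

/-- A wire, up to the end of the number read. -/
lemma run_wire (r : Fin 3) (inp o : List Bool) (v : Option Bool) (j u : ℕ) :
    ∃ w, Run (73 * (2 * j + 3) + 1 + u)
      (cfg (some (.beg r 0)) v (stk (un u ++ inp) o (tt j) []))
      (cfg (some (.rd r)) w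
        (stk (un 0 ++ inp) ((wireEdges j r.val u).flatMap encE ++ o) (tt j) [])) := by
  obtain ⟨w, h1⟩ := run_nums r (un u ++ inp) o v j 73 (by norm_num)
  have hlen := cs_length r.val
  have e1 : (cs r.val).take 73 = cs r.val := List.take_of_length_le (by omega)
  rw [e1] at h1
  have h2 : Run 1 (cfg (some (.beg r ⟨73, by norm_num⟩)) w
      (stk (un u ++ inp) (outs j (cs r.val) o) (tt j) []))
      (cfg (some (.rd r)) w
        (stk (un u ++ inp) (false :: outs j (cs r.val) o) (tt j) [])) := by
    apply Run.one
    simp [prog, cfg]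
    rfl
  obtain ⟨w', h3⟩ := run_rd_loop r inp (tt j) [] w u (false :: outs j (cs r.val) o)
  refine ⟨w', ?_⟩
  have e2 : tt (74 * u) ++ (false :: outs j (cs r.val) o)
      = (wireEdges j r.val u).flatMap encE ++ o := by
    rw [← wire_out]
    simp [un]
  rw [e2] at h3
  exact (h1.trans h2).trans h3

/-- One clause. -/
lemma run_clause (inp o : List Bool) (v : Option Bool) (j a b c : ℕ) :
    ∃ w, Run (438 * j + (a + b + c) + 664)
      (cfg (some .start) v (stk (un a ++ un b ++ un c ++ inp) o (tt j) []))
      (cfg (some .start) w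
        (stk inp ((wireEdges j 2 c).flatMap encE ++ ((wireEdges j 1 b).flatMap encE ++
          ((wireEdges j 0 a).flatMap encE ++ o))) (tt (j + 1)) [])) := by
  have h0 : ∃ w, Run 1
      (cfg (some .start) v (stk (un a ++ un b ++ un c ++ inp) o (tt j) []))
      (cfg (some (.beg 0 0)) w
        (stk (un a ++ (un b ++ (un c ++ inp))) o (tt j) [])) := by
    cases a with
    | zero =>
      refine ⟨some false, ?_⟩
      apply Run.one
      simp [prog, cfg, un]
      rfl
    | succ a =>
      refine ⟨some true, ?_⟩
      apply Run.one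
      simp [prog, cfg, un, List.replicate_succ]
      rfl
  obtain ⟨w0, h0⟩ := h0
  obtain ⟨w1, h1⟩ := run_wire 0 (un b ++ (un c ++ inp)) o w0 j a
  have h1' := run_rd_end 0 (by decide) (un b ++ (un c ++ inp))
    ((wireEdges j 0 a).flatMap encE ++ o) (tt j) [] w1
  obtain ⟨w2, h2⟩ := run_wire 1 (un c ++ inp) ((wireEdges j 0 a).flatMap encE ++ o)
    (some false) j b
  have h2' := run_rd_end 1 (by decide) (un c ++ inp)
    ((wireEdges j 1 b).flatMap encE ++ ((wireEdges j 0 a).flatMap encE ++ o)) (tt j) [] w2
  obtain ⟨w3, h3⟩ := run_wire 2 inp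
    ((wireEdges j 1 b).flatMap encE ++ ((wireEdges j 0 a).flatMap encE ++ o)) (some false) j c
  have h3' := run_rd_end2 inp ((wireEdges j 2 c).flatMap encE ++
    ((wireEdges j 1 b).flatMap encE ++ ((wireEdges j 0 a).flatMap encE ++ o))) [] j w3
  refine ⟨some false, ?_⟩
  have h := (((((h0.trans h1).trans h1').trans h2).trans h2').trans h3).trans h3'
  have e : 1 + (73 * (2 * j + 3) + 1 + a) + 1 + (73 * (2 * j + 3) + 1 + b) + 1 +
      (73 * (2 * j + 3) + 1 + c) + 1 = 438 * j + (a + b + c) + 664 := by ring
  rw [e] at h
  exact h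

/-- All clauses: number of steps. -/
def stepsF : ℕ → List (ℕ × ℕ × ℕ) → ℕ
  | _, [] => 0
  | j, (a, b, c) :: F => 438 * j + (a + b + c) + 664 + stepsF (j + 1) F

lemma run_all : ∀ (F : List (ℕ × ℕ × ℕ)) (v : Option Bool) (j : ℕ) (acc : List (ℕ × ℕ)),
    ∃ w, Run (stepsF j F)
      (cfg (some .start) v (stk (encF F) (acc.flatMap encE) (tt j) []))
      (cfg (some .start) w
        (stk [] ((go j F acc).flatMap encE) (tt (j + F.length)) [])) := by
  intro F
  induction F with
  | nil => intro v j acc; exact ⟨v, by simpa [encF, go, stepsF] using Run.refl _⟩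
  | cons x F ih =>
    obtain ⟨a, b, c⟩ := x
    intro v j acc
    obtain ⟨w, h⟩ := run_clause (encF F) (acc.flatMap encE) v j a b c
    obtain ⟨w', h'⟩ := ih w (j + 1)
      (wireEdges j 2 c ++ (wireEdges j 1 b ++ (wireEdges j 0 a ++ acc)))
    refine ⟨w', ?_⟩
    have e1 : encF ((a, b, c) :: F) = un a ++ un b ++ un c ++ encF F := by
      simp [encF]
    have e2 : (wireEdges j 2 c ++ (wireEdges j 1 b ++ (wireEdges j 0 a ++ acc))).flatMap encE
        = (wireEdges j 2 c).flatMap encE ++ ((wireEdges j 1 b).flatMap encE ++
          ((wireEdges j 0 a).flatMap encE ++ acc.flatMap encE)) := by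
      simp only [List.flatMap_append]
    have e4 : j + ((a, b, c) :: F).length = j + 1 + F.length := by
      simp; ring
    rw [e2] at h'
    rw [e1, e4]
    exact h.trans h'

/-- The number of marks written by the loop computing `k`. -/
def gk (t : Fin 3) (j : ℕ) : ℕ :=
  if t = 0 then (j + 2) / 3 else if t = 1 then j / 3 else (j + 1) / 3

lemma gk_succ (t : Fin 3) (j : ℕ) :
    22 * (j + 1) + gk t (j + 1) = (if t = 0 then 23 else 22) + (22 * j + gk (t + 1) j) := by
  fin_cases t <;> simp [gk] <;> omega

lemma run_kk (v : Option Bool) : ∀ (j k : ℕ) (t : Fin 3) (o : List Bool),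
    Run (j + 1) (cfg (some (.kk t)) v (stk [] o (tt j) (tt k)))
      (cfg (some .nn) none (stk [] (false :: (tt (22 * j + gk t j) ++ o)) [] (tt (j + k)))) := by
  intro j
  induction j generalizing v with
  | zero =>
    intro k t o
    have hg : gk t 0 = 0 := by
      fin_cases t <;> rfl
    rw [hg]
    apply Run.one
    simp [prog, cfg]
    rfl
  | succ j ih =>
    intro k t o
    have h1 : Run 1 (cfg (some (.kk t)) v (stk [] o (tt (j + 1)) (tt k)))
        (cfg (some (.kk (t + 1))) (some true)
          (stk [] (tt (if t = 0 then 23 else 22) ++ o) (tt j) (tt (k + 1)))) := by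
      apply Run.one
      simp [prog, cfg, List.replicate_succ]
      rfl
    have h2 := ih (some true) (k + 1) (t + 1) (tt (if t = 0 then 23 else 22) ++ o)
    have h3 := h1.trans h2
    have e1 : 1 + (j + 1) = j + 1 + 1 := by ring
    have e2 : tt (22 * j + gk (t + 1) j) ++ (tt (if t = 0 then 23 else 22) ++ o)
        = tt (22 * (j + 1) + gk t (j + 1)) ++ o := by
      rw [← List.append_assoc, ← List.replicate_add, gk_succ, Nat.add_comm]
    have e3 : j + (k + 1) = j + 1 + k := by ring
    rw [e1, e2, e3] at h3
    exact h3

lemma run_nn (v : Option Bool) : ∀ (j : ℕ) (o : List Bool),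
    Run (j + 1) (cfg (some .nn) v (stk [] o [] (tt j)))
      (cfg none none (stk [] (tt (74 * j) ++ o) [] [])) := by
  intro j
  induction j generalizing v with
  | zero =>
    intro o
    apply Run.one
    simp [prog, cfg]
    rfl
  | succ j ih =>
    intro o
    have h1 : Run 1 (cfg (some .nn) v (stk [] o [] (tt (j + 1))))
        (cfg (some .nn) (some true) (stk [] (tt 74 ++ o) [] (tt j))) := by
      apply Run.one
      simp [prog, cfg, List.replicate_succ]
      rfl
    have h3 := h1.trans (ih (some true) (tt 74 ++ o))
    have e1 : 1 + (j + 1) = j + 1 + 1 := by ring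
    have e2 : tt (74 * j) ++ (tt 74 ++ o) = tt (74 * (j + 1)) ++ o := by
      rw [← List.append_assoc, ← List.replicate_add]
      congr 2
    rw [e1, e2] at h3
    exact h3

/-- The whole run. -/
lemma run_total (F : List (ℕ × ℕ × ℕ)) :
    Run (stepsF 0 F + 1 + (F.length + 1) + (F.length + 1))
      (cfg (some .start) none (stk (encF F) [] [] []))
      (cfg none none (stk [] (encI (red F)) [] [])) := by
  obtain ⟨w, h1⟩ := run_all F none 0 []
  have h2 : Run 1
      (cfg (some .start) w
        (stk [] ((go 0 F []).flatMap encE) (tt (0 + F.length)) []))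
      (cfg (some (.kk 0)) none
        (stk [] (false :: (go 0 F []).flatMap encE) (tt (0 + F.length)) [])) := by
    apply Run.one
    simp [prog, cfg]
    rfl
  have h3 := run_kk none (0 + F.length) 0 0 (false :: (go 0 F []).flatMap encE)
  have h4 := run_nn none (0 + F.length + 0) (false :: (tt (22 * (0 + F.length) +
    gk 0 (0 + F.length)) ++ (false :: (go 0 F []).flatMap encE)))
  have h := ((h1.trans h2).trans h3).trans h4
  simp only [zero_add, add_zero] at h
  have e : encI (red F) = tt (74 * F.length) ++ (false :: (tt (22 * F.length +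
      gk 0 F.length) ++ (false :: (go 0 F []).flatMap encE))) := by
    have h5 : ((red F).edges.flatMap fun e => un e.1 ++ un e.2) = (go 0 F []).flatMap encE := rfl
    unfold encI
    rw [h5]
    simp [un, red, gk]
  rw [e]
  exact h

/-! ### Polynomial time -/

lemma un_length (k : ℕ) : (un k).length = k + 1 := by simp [un]

lemma encF_cons_length (x : ℕ × ℕ × ℕ) (F : List (ℕ × ℕ × ℕ)) :
    (encF (x :: F)).length = x.1 + 1 + (x.2.1 + 1) + (x.2.2 + 1) + (encF F).length := by
  unfold encF
  rw [List.flatMap_cons, List.length_append, List.length_append, List.length_append, un_length,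
    un_length, un_length]

lemma len_le (F : List (ℕ × ℕ × ℕ)) : F.length ≤ (encF F).length := by
  induction F with
  | nil => simp
  | cons x F ih =>
    have h1 := encF_cons_length x F
    rw [List.length_cons]
    omega

lemma steps_le (F : List (ℕ × ℕ × ℕ)) :
    ∀ j, stepsF j F ≤ (438 * (j + F.length) + 664) * (encF F).length := by
  induction F with
  | nil => intro j; simp [stepsF]
  | cons x F ih =>
    obtain ⟨a, b, c⟩ := x
    intro j
    have h1 : (encF ((a, b, c) :: F)).length = a + 1 + (b + 1) + (c + 1) + (encF F).length :=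
      encF_cons_length _ F
    have h2 := ih (j + 1)
    have h3 : stepsF j ((a, b, c) :: F) = 438 * j + (a + b + c) + 664 + stepsF (j + 1) F := rfl
    have h4 : j + ((a, b, c) :: F).length = j + 1 + F.length := by simp; ring
    rw [h1, h3, h4]
    have h5 : (438 * (j + 1 + F.length) + 664) * (a + 1 + (b + 1) + (c + 1) + (encF F).length)
      = (438 * (j + 1 + F.length) + 664) * (a + b + c + 3)
        + (438 * (j + 1 + F.length) + 664) * (encF F).length := by ring
    rw [h5]
    have h6 : 438 * j + (a + b + c) + 664
        ≤ (438 * (j + 1 + F.length) + 664) * (a + b + c + 3) := by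
      nlinarith [Nat.zero_le (j * (a + b + c)), Nat.zero_le (F.length * (a + b + c))]
    omega

lemma init_eq (s : List Bool) :
    initList tm s = cfg (some .start) none (stk s [] [] []) := by
  unfold initList cfg
  congr 1
  funext k
  cases k <;> rfl

lemma halt_eq (s : List Bool) :
    haltList tm s = cfg none none (stk [] s [] []) := by
  unfold haltList cfg
  congr 1
  funext k
  cases k <;> rfl

/-- The reduction is computable in polynomial time. -/
noncomputable def red_polytime : TM2ComputableInPolyTime encF encI red where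
  tm := tm
  inputAlphabet := Equiv.refl _
  outputAlphabet := Equiv.refl _
  time := 438 * Polynomial.X ^ 2 + 666 * Polynomial.X + 3
  outputsFun F := by
    refine ⟨⟨stepsF 0 F + 1 + (F.length + 1) + (F.length + 1), ?_⟩, ?_⟩
    · have h := run_total F
      unfold Run at h
      change (flip bind tm.step)^[stepsF 0 F + 1 + (F.length + 1) + (F.length + 1)]
        (some (initList tm (List.map id (encF F))))
          = Option.map (haltList tm) (some (List.map id (encI (red F))))
      rw [List.map_id, List.map_id]
      simp only [Option.map_some]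
      rw [init_eq, halt_eq]
      exact h
    · have h1 := steps_le F 0
      have h2 := len_le F
      simp only [Polynomial.eval_add, Polynomial.eval_mul, Polynomial.eval_pow, Polynomial.eval_X,
        Polynomial.eval_ofNat]
      set x := (encF F).length
      have h4 : (438 * (0 + F.length) + 664) * x ≤ (438 * x + 664) * x :=
        Nat.mul_le_mul_right _ (by omega)
      have h5 : (438 * x + 664) * x = 438 * x ^ 2 + 664 * x := by ring
      omega

/-! ### The encodings are injective -/

lemma un_inj : ∀ {k k' : ℕ} {l l' : List Bool}, un k ++ l = un k' ++ l' → k = k' ∧ l = l' := by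
  intro k
  induction k with
  | zero =>
    intro k' l l' h
    cases k' with
    | zero => simpa [un] using h
    | succ k' => simp [un, List.replicate_succ] at h
  | succ k ih =>
    intro k' l l' h
    cases k' with
    | zero => simp [un, List.replicate_succ] at h
    | succ k' =>
      have h' : un k ++ l = un k' ++ l' := by
        simpa [un, List.replicate_succ] using h
      obtain ⟨h1, h2⟩ := ih h'
      exact ⟨by rw [h1], h2⟩

lemma un_ne_nil (k : ℕ) (l : List Bool) : un k ++ l ≠ [] := by
  simp [un]

lemma encF_inj : Function.Injective encF := by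
  intro F
  induction F with
  | nil =>
    intro F' h
    cases F' with
    | nil => rfl
    | cons x F' =>
      exfalso
      have h' : encF (x :: F') = un x.1 ++ (un x.2.1 ++ (un x.2.2 ++ encF F')) := by
        simp [encF, List.append_assoc]
      rw [h'] at h
      exact un_ne_nil _ _ h.symm
  | cons y F ih =>
    intro F' h
    have hy : encF (y :: F) = un y.1 ++ (un y.2.1 ++ (un y.2.2 ++ encF F)) := by
      simp [encF, List.append_assoc]
    cases F' with
    | nil => rw [hy] at h; exact absurd h (un_ne_nil _ _)
    | cons x F' =>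
      have hx : encF (x :: F') = un x.1 ++ (un x.2.1 ++ (un x.2.2 ++ encF F')) := by
        simp [encF, List.append_assoc]
      rw [hy, hx] at h
      obtain ⟨h1, h⟩ := un_inj h
      obtain ⟨h2, h⟩ := un_inj h
      obtain ⟨h3, h⟩ := un_inj h
      rw [ih h]
      congr 1
      exact Prod.ext h1 (Prod.ext h2 h3)

lemma flatMap_encE_inj : ∀ {L L' : List (ℕ × ℕ)},
    L.flatMap encE = L'.flatMap encE → L = L' := by
  intro L
  induction L with
  | nil =>
    intro L' h
    cases L' with
    | nil => rfl
    | cons x L' =>
      exfalso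
      rw [List.flatMap_cons, List.flatMap_nil] at h
      unfold encE at h
      rw [List.append_assoc] at h
      exact un_ne_nil _ _ h.symm
  | cons y L ih =>
    intro L' h
    cases L' with
    | nil =>
      exfalso
      rw [List.flatMap_cons, List.flatMap_nil] at h
      unfold encE at h
      rw [List.append_assoc] at h
      exact un_ne_nil _ _ h
    | cons x L' =>
      rw [List.flatMap_cons, List.flatMap_cons] at h
      unfold encE at h
      rw [List.append_assoc, List.append_assoc] at h
      obtain ⟨h1, h⟩ := un_inj h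
      obtain ⟨h2, h⟩ := un_inj h
      rw [ih h, Prod.ext h1 h2]

lemma encI_inj : Function.Injective encI := by
  rintro ⟨n, k, L⟩ ⟨n', k', L'⟩ h
  unfold encI at h
  obtain ⟨h1, h⟩ := un_inj h
  obtain ⟨h2, h3⟩ := un_inj h
  simp only at h1 h2 h3
  rw [h1, h2, flatMap_encE_inj h3]

end Pool.Agent.Lib.MP_7e9d2b_lc
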