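import Pool.Agent.Lib.MP_7e9d2b_lc.Glue

/-!
The graph of the reduction is planar if the incidence graph is.
-/

namespace Pool.Agent.Lib.MP_7e9d2b_lc

open Set Filter Topology

/-- The affine map placing the wire between the clause at `c` and the variable at `v`. -/
noncomputable def place (δ : ℝ) (c v : ℝ × ℝ) : (ℝ × ℝ) →ᵃ[ℝ] (ℝ × ℝ) where
  toFun z := c + ((z.1 / 160) • (v - c) + (δ * (z.2 / 10000)) • rot (v - c))
  linear :=
    { toFun := fun z => (z.1 / 160) • (v - c) + (δ * (z.2 / 10000)) • rot (v - c)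
      map_add' := by
        intro x y
        ext
        · simp only [Prod.fst_add, Prod.snd_add, Prod.smul_fst, smul_eq_mul]; ring
        · simp only [Prod.fst_add, Prod.snd_add, Prod.smul_snd, smul_eq_mul]; ring
      map_smul' := by
        intro x y
        ext
        · simp only [Prod.smul_fst, Prod.smul_snd, smul_eq_mul, Prod.fst_add, RingHom.id_apply]
          ring
        · simp only [Prod.smul_fst, Prod.smul_snd, smul_eq_mul, Prod.snd_add, RingHom.id_apply]
          ring }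
  map_vadd' := by
    intro x y
    ext
    · simp only [vadd_eq_add, LinearMap.coe_mk, AddHom.coe_mk, Prod.fst_add, Prod.snd_add,
        Prod.smul_fst, smul_eq_mul]
      ring
    · simp only [vadd_eq_add, LinearMap.coe_mk, AddHom.coe_mk, Prod.fst_add, Prod.snd_add,
        Prod.smul_snd, smul_eq_mul]
      ring

lemma place_apply (δ : ℝ) (c v z : ℝ × ℝ) :
    place δ c v z = c + ((z.1 / 160) • (v - c) + (δ * (z.2 / 10000)) • rot (v - c)) := rfl

lemma place_inj {δ : ℝ} {c v : ℝ × ℝ} (hδ : 0 < δ) (hcv : c ≠ v) :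
    Function.Injective (place δ c v) := by
  intro z z' h
  rw [place_apply, place_apply, add_right_inj] at h
  have h1 := congrArg Prod.fst h
  have h2 := congrArg Prod.snd h
  simp only [Prod.fst_add, Prod.snd_add, Prod.smul_fst, Prod.smul_snd, smul_eq_mul, rot] at h1 h2
  have hN : 0 < (v - c).1 ^ 2 + (v - c).2 ^ 2 := by
    by_contra hh
    have e1 : (v - c).1 = 0 := by nlinarith [sq_nonneg (v - c).1, sq_nonneg (v - c).2]
    have e2 : (v - c).2 = 0 := by nlinarith [sq_nonneg (v - c).1, sq_nonneg (v - c).2]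
    have : v - c = 0 := Prod.ext e1 e2
    exact hcv (sub_eq_zero.1 this).symm
  have e1 : (z.1 - z'.1) * ((v - c).1 ^ 2 + (v - c).2 ^ 2) = 0 := by
    linear_combination 160 * ((v - c).1 * h1 + (v - c).2 * h2)
  have e2 : (z.2 - z'.2) * (δ * ((v - c).1 ^ 2 + (v - c).2 ^ 2)) = 0 := by
    linear_combination 10000 * (-(v - c).2 * h1 + (v - c).1 * h2)
  rcases mul_eq_zero.1 e1 with h3 | h3
  · rcases mul_eq_zero.1 e2 with h4 | h4
    · exact Prod.ext (sub_eq_zero.1 h3) (sub_eq_zero.1 h4)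
    · exact absurd h4 (mul_pos hδ hN).ne'
  · exact absurd h3 hN.ne'

lemma loc_bound : ∀ l : Fin 26, 160 * |(locZ l).2| ≤ 10000 * (locZ l).1 ∧
    160 * |(locZ l).2| ≤ 10000 * (160 - (locZ l).1) := by decide +kernel

lemma place_kite (δ : ℝ) (c v : ℝ × ℝ) (l : Fin 26) : place δ c v (loc l) ∈ Kite δ c v := by
  refine ⟨(loc l).1 / 160, (loc l).2 / 10000, ?_, ?_, ?_⟩
  · have h : (160 * |((locZ l).2 : ℝ)| : ℝ) ≤ 10000 * ((locZ l).1 : ℝ) := by
      exact_mod_cast (loc_bound l).1
    simp only [loc]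
    rw [abs_div, abs_of_pos (by norm_num : (0 : ℝ) < 10000), div_le_div_iff₀ (by norm_num)
      (by norm_num)]
    linarith
  · have h : (160 * |((locZ l).2 : ℝ)| : ℝ) ≤ 10000 * (160 - ((locZ l).1 : ℝ)) := by
      exact_mod_cast (loc_bound l).2
    simp only [loc]
    rw [abs_div, abs_of_pos (by norm_num : (0 : ℝ) < 10000), div_le_iff₀ (by norm_num)]
    linarith
  · rw [place_apply, add_assoc]

variable {F : List (ℕ × ℕ × ℕ)}

/-- The variable of an incidence. -/
def vv (hF : CubicFormula F) (e : Fin F.length × Fin 3) : Fin F.length :=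
  ⟨lit F e.1 e.2, hF.2.1 e.1 e.2⟩

/-- The vertices of a wire with its ends. -/
def tau (hF : CubicFormula F) (e : Fin F.length × Fin 3) (l : Fin 26) : Vx F.length :=
  if h : l.val < 12 then .gx e.1 e.2 ⟨l.val, h⟩
  else if h' : l.val < 24 then .gy e.1 e.2 ⟨l.val - 12, by omega⟩
  else if l.val = 24 then .cls e.1 else .var (vv hF e)

lemma tau_gx (hF : CubicFormula F) (e : Fin F.length × Fin 3) (i : Fin 12) :
    tau hF e ⟨i.val, by omega⟩ = .gx e.1 e.2 i := by
  unfold tau
  simp [i.isLt]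

lemma tau_gy (hF : CubicFormula F) (e : Fin F.length × Fin 3) (i : Fin 12) :
    tau hF e ⟨12 + i.val, by omega⟩ = .gy e.1 e.2 i := by
  unfold tau
  have h1 : ¬ (12 + i.val < 12) := by omega
  have h2 : 12 + i.val < 24 := by omega
  simp [h1, h2]

lemma tau_cls (hF : CubicFormula F) (e : Fin F.length × Fin 3) :
    tau hF e 24 = .cls e.1 := rfl

lemma tau_var (hF : CubicFormula F) (e : Fin F.length × Fin 3) :
    tau hF e 25 = .var (vv hF e) := rfl

/-- The places of the vertices. -/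
noncomputable def pos (hF : CubicFormula F) (p : Fin F.length ⊕ Fin F.length → ℝ × ℝ) (δ : ℝ) :
    Vx F.length → ℝ × ℝ
  | .var u => p (.inl u)
  | .cls j => p (.inr j)
  | .gx j r i => place δ (p (.inr j)) (p (.inl (vv hF (j, r)))) (loc ⟨i.val, by omega⟩)
  | .gy j r i => place δ (p (.inr j)) (p (.inl (vv hF (j, r)))) (loc ⟨12 + i.val, by omega⟩)

lemma loc_cls : loc 24 = (0, 0) := by
  simp [loc, show locZ 24 = (0, 0) from rfl]

lemma loc_var : loc 25 = (160, 0) := by
  simp [loc, show locZ 25 = (160, 0) from rfl]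

/-- The four kinds of local vertices. -/
lemma loc_cases (l : Fin 26) : (∃ i : Fin 12, l = ⟨i.val, by omega⟩) ∨
    (∃ i : Fin 12, l = ⟨12 + i.val, by omega⟩) ∨ l = 24 ∨ l = 25 := by
  rcases lt_or_ge l.val 12 with h | h
  · exact Or.inl ⟨⟨l.val, h⟩, rfl⟩
  rcases lt_or_ge l.val 24 with h' | h'
  · exact Or.inr (Or.inl ⟨⟨l.val - 12, by omega⟩, Fin.ext (by simp only; omega)⟩)
  · have : l.val = 24 ∨ l.val = 25 := by omega
    rcases this with h1 | h1
    · exact Or.inr (Or.inr (Or.inl (Fin.ext h1)))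
    · exact Or.inr (Or.inr (Or.inr (Fin.ext h1)))

lemma pos_tau (hF : CubicFormula F) (p : Fin F.length ⊕ Fin F.length → ℝ × ℝ) (δ : ℝ)
    (e : Fin F.length × Fin 3) (l : Fin 26) :
    pos hF p δ (tau hF e l) = place δ (p (.inr e.1)) (p (.inl (vv hF e))) (loc l) := by
  rcases loc_cases l with ⟨i, rfl⟩ | ⟨i, rfl⟩ | rfl | rfl
  · rw [tau_gx]; rfl
  · rw [tau_gy]; rfl
  · rw [tau_cls, loc_cls, place_apply]
    simp [pos]
  · rw [tau_var, loc_var, place_apply]
    simp [pos]

lemma inc_adj (hF : CubicFormula F) (e : Fin F.length × Fin 3) :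
    (incidence F).Adj (.inl (vv hF e)) (.inr e.1) := ⟨e.2, rfl⟩

/-- Every variable occurs somewhere. -/
lemma exists_inc (hF : CubicFormula F) (u : Fin F.length) : ∃ e, vv hF e = u := by
  have h := hF.2.2.2 u.val u.isLt
  have hne : {j | ∃ r, lit F j r = u.val}.Nonempty := by
    by_contra hcon
    rw [Set.not_nonempty_iff_eq_empty] at hcon
    rw [hcon, Set.ncard_empty] at h
    omega
  obtain ⟨j, r, hr⟩ := hne
  exact ⟨(j, r), Fin.ext hr⟩

lemma mem_locE_wire : ∀ e ∈ wire, ∀ h : e.1 < 26, ∀ h' : 12 + e.2 < 26,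
    ((⟨e.1, h⟩, ⟨12 + e.2, h'⟩) : Fin 26 × Fin 26) ∈ locE := by decide +kernel

lemma arc_cover (hF : CubicFormula F) {a b : Vx F.length} (h : Arc F a b) :
    ∃ e l l', locG.Adj l l' ∧ a = tau hF e l ∧ b = tau hF e l' := by
  rcases a with u | j | ⟨j, r, i⟩ | ⟨j, r, i⟩ <;>
    rcases b with u' | j' | ⟨j', r', i'⟩ | ⟨j', r', i'⟩ <;> simp only [Arc] at h
  · obtain ⟨rfl, h⟩ := h
    refine ⟨(j', r'), 25, 13, Or.inl (by decide), ?_, ?_⟩
    · rw [tau_var]
      congr 1
      exact Fin.ext h.symm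
    · exact (tau_gy hF (j', r') 1).symm
  · obtain ⟨rfl, rfl⟩ := h
    refine ⟨(j, r), 0, 24, Or.inl (by decide), ?_, ?_⟩
    · exact (tau_gx hF (j, r) 0).symm
    · rfl
  · obtain ⟨rfl, rfl, h⟩ := h
    refine ⟨(j, r), ⟨i.val, by omega⟩, ⟨12 + i'.val, by omega⟩,
      Or.inl (mem_locE_wire _ h _ _), ?_, ?_⟩
    · rw [tau_gx]
    · rw [tau_gy]

lemma sep_pair (hF : CubicFormula F) {p : Fin F.length ⊕ Fin F.length → ℝ × ℝ}
    (hp : IsDrawing (incidence F) p) (e e' : Fin F.length × Fin 3) (hne : e ≠ e') :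
    ∀ᶠ δ in 𝓝[>] (0 : ℝ), ∀ z, z ∈ Kite δ (p (.inr e.1)) (p (.inl (vv hF e))) →
      z ∈ Kite δ (p (.inr e'.1)) (p (.inl (vv hF e'))) →
      (z = p (.inr e.1) ∧ e.1 = e'.1) ∨ (z = p (.inl (vv hF e)) ∧ vv hF e = vv hF e') := by
  obtain ⟨hp1, hp2, hp3⟩ := hp
  have hadj := inc_adj hF
  by_cases h1 : e.1 = e'.1
  · -- the same clause
    have h2 : vv hF e ≠ vv hF e' := by
      intro h
      apply hne
      have h3 : lit F e.1 e.2 = lit F e'.1 e'.2 := congrArg Fin.val h
      rw [← h1] at h3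
      exact Prod.ext h1 (hF.2.2.1 _ h3)
    have a1 : p (.inl (vv hF e')) ∉ segment ℝ (p (.inr e.1)) (p (.inl (vv hF e))) := by
      intro hh
      rcases hp2 _ _ _ (hadj e).symm hh with h | h
      · cases h
      · exact h2 (Sum.inl_injective h).symm
    have a2 : p (.inl (vv hF e)) ∉ segment ℝ (p (.inr e.1)) (p (.inl (vv hF e'))) := by
      intro hh
      rw [h1] at hh
      rcases hp2 _ _ _ (hadj e').symm hh with h | h
      · cases h
      · exact h2 (Sum.inl_injective h)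
    filter_upwards [cone_sep a1 a2] with δ hδ z hz hz'
    left
    rw [← h1] at hz'
    exact ⟨hδ z hz hz', h1⟩
  by_cases h2 : vv hF e = vv hF e'
  · -- the same variable
    have a1 : p (.inr e'.1) ∉ segment ℝ (p (.inl (vv hF e))) (p (.inr e.1)) := by
      intro hh
      rcases hp2 _ _ _ (hadj e) hh with h | h
      · cases h
      · exact h1 (Sum.inr_injective h).symm
    have a2 : p (.inr e.1) ∉ segment ℝ (p (.inl (vv hF e))) (p (.inr e'.1)) := by
      intro hh
      rw [h2] at hh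
      rcases hp2 _ _ _ (hadj e') hh with h | h
      · cases h
      · exact h1 (Sum.inr_injective h)
    filter_upwards [cone_sep a1 a2] with δ hδ z hz hz'
    right
    rw [kite_symm] at hz hz'
    rw [← h2] at hz'
    exact ⟨hδ z hz hz', h2⟩
  · -- disjoint edges
    have hd : Disjoint (segment ℝ (p (.inr e.1)) (p (.inl (vv hF e))))
        (segment ℝ (p (.inr e'.1)) (p (.inl (vv hF e')))) := by
      rw [Set.disjoint_left]
      intro z hz hz'
      obtain ⟨v, hv, hv', -⟩ := hp3 _ _ _ _ (hadj e).symm (hadj e').symm (by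
        intro hh
        rw [Sym2.eq_iff] at hh
        rcases hh with ⟨h, -⟩ | ⟨h, -⟩
        · exact h1 (Sum.inr_injective h)
        · cases h) z hz hz'
      rcases hv with rfl | rfl <;> rcases hv' with h | h
      · exact h1 (Sum.inr_injective h)
      · cases h
      · cases h
      · exact h2 (Sum.inl_injective h)
    filter_upwards [disj_sep hd] with δ hδ z hz hz'
    exact absurd hz' (hδ z hz)

/-- The graph of the reduction is planar. -/
theorem ag_planar (hF : CubicFormula F) (h : Planar (incidence F)) : Planar (AG F) := by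
  obtain ⟨p, hp⟩ := h
  have hall : ∀ᶠ δ in 𝓝[>] (0 : ℝ), ∀ ee : (Fin F.length × Fin 3) × (Fin F.length × Fin 3),
      ee.1 ≠ ee.2 → ∀ z, z ∈ Kite δ (p (.inr ee.1.1)) (p (.inl (vv hF ee.1))) →
      z ∈ Kite δ (p (.inr ee.2.1)) (p (.inl (vv hF ee.2))) →
      (z = p (.inr ee.1.1) ∧ ee.1.1 = ee.2.1) ∨
        (z = p (.inl (vv hF ee.1)) ∧ vv hF ee.1 = vv hF ee.2) := by
    rw [Filter.eventually_all]
    rintro ⟨e, e'⟩
    by_cases hne : e = e'
    · exact Eventually.of_forall fun δ hh => absurd hne hh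
    · filter_upwards [sep_pair hF hp e e' hne] with δ hδ _
      exact hδ
  obtain ⟨δ, hδ, hδ0⟩ := (hall.and self_mem_nhdsWithin).exists
  have hδ0' : 0 < δ := hδ0
  refine ⟨pos hF p δ, ?_⟩
  have hinj : ∀ e : Fin F.length × Fin 3,
      Function.Injective (place δ (p (.inr e.1)) (p (.inl (vv hF e)))) := by
    intro e
    apply place_inj hδ0'
    intro h
    have := hp.1 h
    cases this
  refine glue loc_drawing (tau hF) (fun e => place δ (p (.inr e.1)) (p (.inl (vv hF e)))) hinj _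
    (pos_tau hF p δ) ?_ ?_ (fun e => Kite δ (p (.inr e.1)) (p (.inl (vv hF e))))
    (fun e => kite_convex _ _ _) (fun e l => place_kite _ _ _ _) ?_
  · rintro (u | j | ⟨j, r, i⟩ | ⟨j, r, i⟩)
    · obtain ⟨e, rfl⟩ := exists_inc hF u
      exact ⟨e, 25, rfl⟩
    · exact ⟨(j, 0), 24, rfl⟩
    · exact ⟨(j, r), ⟨i.val, by omega⟩, (tau_gx hF (j, r) i).symm⟩
    · exact ⟨(j, r), ⟨12 + i.val, by omega⟩, (tau_gy hF (j, r) i).symm⟩
  · intro a b hab
    rcases hab with hab | hab
    · exact arc_cover hF hab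
    · obtain ⟨e, l, l', h1, h2, h3⟩ := arc_cover hF hab
      exact ⟨e, l', l, h1.symm, h3, h2⟩
  · intro e e' hne z hz hz'
    rcases hδ (e, e') hne z hz hz' with ⟨h1, h2⟩ | ⟨h1, h2⟩
    · refine ⟨24, 24, ?_, ?_⟩
      · rw [h1, loc_cls, place_apply]
        simp
      · rw [tau_cls, tau_cls, h2]
    · refine ⟨25, 25, ?_, ?_⟩
      · rw [h1, loc_var, place_apply]
        simp
      · rw [tau_var, tau_var, h2]

end Pool.Agent.Lib.MP_7e9d2b_lc
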